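import Mathlib
/-!
Smooth closed curves in Euclidean space, the `C^∞` topology, nondegenerate curves.
-/
open scoped ContDiff Topology

namespace Run7.h773

/-- Smooth closed curves in `ℝ^n`: smooth maps `ℝ → ℝ^n` of period `2π`. -/
def SmoothLoop (n : ℕ) : Type :=
  {γ : ℝ → EuclideanSpace ℝ (Fin n) // ContDiff ℝ ∞ γ ∧ Function.Periodic γ (2 * Real.pi)}

/-- The `C^∞` topology: uniform convergence of every derivative. -/
noncomputable instance (n : ℕ) : TopologicalSpace (SmoothLoop n) :=
  ⨅ k : ℕ, TopologicalSpace.induced
    (fun γ : SmoothLoop n => UniformFun.ofFun (iteratedDeriv k γ.1)) inferInstance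

/-- A closed curve is nondegenerate if its first `n` derivatives are linearly independent at
every parameter value. -/
def Nondegenerate {n : ℕ} (γ : SmoothLoop n) : Prop :=
  ∀ t : ℝ, LinearIndependent ℝ (fun k : Fin n => iteratedDeriv ((k : ℕ) + 1) γ.1 t)

/-- The coordinates of the unit circle of the first coordinate plane, traversed `m` times. -/
noncomputable def circCoord (m : ℕ) (t : ℝ) (i : ℕ) : ℝ :=
  if i = 0 then Real.cos (m * t) else if i = 1 then Real.sin (m * t) else 0

/-- The plane unit circle traversed `m` times, as a closed curve in `ℝ^n`. -/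
noncomputable def circ (n m : ℕ) : SmoothLoop n :=
  ⟨fun t => WithLp.toLp 2 (fun i : Fin n => circCoord m t i), by
    constructor
    · rw [contDiff_euclidean]
      intro i
      change ContDiff ℝ ∞ (fun t : ℝ => circCoord m t i)
      unfold circCoord
      split_ifs
      · fun_prop
      · fun_prop
      · exact contDiff_const
    · intro t
      apply PiLp.ext
      intro i
      change circCoord m (t + 2 * Real.pi) i = circCoord m t i
      unfold circCoord
      have h : (m : ℝ) * (t + 2 * Real.pi) = m * t + m * (2 * Real.pi) := by ring
      rw [h, Real.cos_add_nat_mul_two_pi, Real.sin_add_nat_mul_two_pi]⟩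

end Run7.h773
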