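import Pool.Agent.Run7.h773.Curve
/-!
Explicit families giving nondegenerate perturbations of the once traversed circle
in every dimension at least four.
-/
open scoped ContDiff Topology
open Polynomial Finset

namespace Run7.h773

theorem sum_range_double {M : Type*} [AddCommMonoid M] (F : ℕ → M) (K : ℕ) :
    ∑ j ∈ range (2 * K), F j = ∑ m ∈ range K, (F (2 * m) + F (2 * m + 1)) := by
  induction K with
  | zero => simp
  | succ K ih =>
    rw [show 2 * (K + 1) = 2 * K + 1 + 1 by ring, sum_range_succ, sum_range_succ, ih,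
      sum_range_succ, add_assoc]

/-- even dimensions -/
noncomputable def fEven (j : ℕ) : V :=
  if j % 2 = 0 then Cf ((j / 2 + 2 : ℕ) : ℝ) else Sf ((j / 2 + 2 : ℕ) : ℝ)

theorem fEven_per (j : ℕ) : Per (fEven j) := by
  unfold fEven
  split_ifs
  · exact per_Cf _
  · exact per_Sf _

theorem fEven_two_mul (m : ℕ) : fEven (2 * m) = Cf ((m + 2 : ℕ) : ℝ) := by
  unfold fEven
  rw [if_pos (by omega), show 2 * m / 2 = m by omega]

theorem fEven_two_mul_add_one (m : ℕ) : fEven (2 * m + 1) = Sf ((m + 2 : ℕ) : ℝ) := by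
  unfold fEven
  rw [if_neg (by omega), show (2 * m + 1) / 2 = m by omega]

theorem factor_ne_zero {l : ℝ} (hl : 2 ≤ l) : l * (1 - l ^ 2) ≠ 0 := by
  apply mul_ne_zero
  · linarith
  · nlinarith

theorem regular_even (M : ℕ) : Regular (2 * M) (fun j => third (fEven j)) := by
  intro t c hc
  set l : ℕ → ℝ := fun m => ((m + 2 : ℕ) : ℝ) with hl
  have hl2 : ∀ m, 2 ≤ l m := by
    intro m; simp only [hl]; push_cast; have := Nat.cast_nonneg (α := ℝ) m; linarith
  have e : (∑ j ∈ range (2 * M), c j • third (fEven j)) =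
      comb M l (fun m => c (2 * m + 1) * (l m * (1 - l m ^ 2)))
        (fun m => c (2 * m) * (-(l m * (1 - l m ^ 2)))) := by
    rw [sum_range_double]
    unfold comb
    apply sum_congr rfl
    intro m _
    rw [fEven_two_mul, fEven_two_mul_add_one, third_Cf, third_Sf, smul_smul, smul_smul, add_comm]
  rw [e] at hc
  have hti := trig_indep M l (fun i _ => by have := hl2 i; linarith)
    (fun i _ j _ h => by
      have h2 : l i = l j := by
        have h1 := hl2 i; have h2 := hl2 j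
        nlinarith [sq_nonneg (l i - l j)]
      simp only [hl] at h2
      have h3 := Nat.cast_injective h2
      omega) _ _ t hc
  intro j hj
  rcases Nat.even_or_odd' j with ⟨m, hm | hm⟩
  · have := (hti m (by omega)).2
    rw [hm]
    exact (mul_eq_zero.1 this).resolve_right (neg_ne_zero.2 (factor_ne_zero (hl2 m)))
  · have := (hti m (by omega)).1
    rw [hm]
    exact (mul_eq_zero.1 this).resolve_right (factor_ne_zero (hl2 m))

/-- `third (Gf l) = cos (l t)` -/
noncomputable def Gf (l : ℝ) : V := (l * (1 - l ^ 2))⁻¹ • Sf l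

/-- `third (Hf l) = sin (l t)` -/
noncomputable def Hf (l : ℝ) : V := (-(l * (1 - l ^ 2)))⁻¹ • Cf l

theorem third_Gf {l : ℝ} (hl : 2 ≤ l) : third (Gf l) = Cf l := by
  unfold Gf
  rw [third_smul, third_Sf, smul_smul, inv_mul_cancel₀ (factor_ne_zero hl), one_smul]

theorem third_Hf {l : ℝ} (hl : 2 ≤ l) : third (Hf l) = Sf l := by
  unfold Hf
  rw [third_smul, third_Cf, smul_smul, inv_mul_cancel₀ (neg_ne_zero.2 (factor_ne_zero hl)), one_smul]

/-- the positive weight -/
noncomputable def rho : V := oneV + (8 / 9 : ℝ) • Cf 7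

theorem rho_apply (t : ℝ) : rho.1 t = 1 + 8 / 9 * Real.cos (7 * t) := rfl

theorem rho_pos (t : ℝ) : 0 < rho.1 t := by
  rw [rho_apply]
  have := Real.neg_one_le_cos (7 * t)
  linarith

/-- its inverse -/
noncomputable def rhoInv : V := ⟨fun t => (rho.1 t)⁻¹, mem_V.2
  ((smooth_V rho).inv (fun t => (rho_pos t).ne'))⟩

theorem rhoInv_mul (f : V) : mulV rhoInv (mulV rho f) = f := by
  apply Subtype.ext
  funext t
  change (rho.1 t)⁻¹ * (rho.1 t * f.1 t) = f.1 t
  rw [inv_mul_cancel_left₀ (rho_pos t).ne']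

/-- the mean-zero partner -/
noncomputable def vv : V := (4 : ℝ) • oneV - (9 : ℝ) • Cf 7

theorem rho_mul_vv : mulV rho vv = (-(49 / 9 : ℝ)) • Cf 7 + (-(4 : ℝ)) • Cf 14 := by
  apply Subtype.ext
  funext t
  change (1 + 8 / 9 * Real.cos (7 * t)) * (4 * 1 - 9 * Real.cos (7 * t)) =
    (-(49 / 9 : ℝ)) * Real.cos (7 * t) + (-(4 : ℝ)) * Real.cos (14 * t)
  rw [show (14 : ℝ) * t = 2 * (7 * t) by ring, Real.cos_two_mul]
  ring

theorem rho_mul_Cf (l : ℝ) : mulV rho (Cf l) = Cf l + (4 / 9 : ℝ) • (Cf (l + 7) + Cf (l - 7)) := by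
  apply Subtype.ext
  funext t
  change (1 + 8 / 9 * Real.cos (7 * t)) * Real.cos (l * t) =
    Real.cos (l * t) + 4 / 9 * (Real.cos ((l + 7) * t) + Real.cos ((l - 7) * t))
  rw [show (l + 7) * t = l * t + 7 * t by ring, show (l - 7) * t = l * t - 7 * t by ring,
    Real.cos_add, Real.cos_sub]
  ring

theorem rho_mul_Sf (l : ℝ) : mulV rho (Sf l) = Sf l + (4 / 9 : ℝ) • (Sf (l + 7) + Sf (l - 7)) := by
  apply Subtype.ext
  funext t
  change (1 + 8 / 9 * Real.cos (7 * t)) * Real.sin (l * t) =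
    Real.sin (l * t) + 4 / 9 * (Real.sin ((l + 7) * t) + Real.sin ((l - 7) * t))
  rw [show (l + 7) * t = l * t + 7 * t by ring, show (l - 7) * t = l * t - 7 * t by ring,
    Real.sin_add, Real.sin_sub]
  ring

/-- frequencies -/
def fr (m : ℕ) : ℕ := 7 * m + 9

/-- odd dimensions -/
noncomputable def fOdd : ℕ → V
  | 0 => (-(49 / 9 : ℝ)) • Gf 7 + (-(4 : ℝ)) • Gf 14
  | (j + 1) =>
    if j % 2 = 0 then
      Gf (fr (j / 2) : ℝ) + (4 / 9 : ℝ) • (Gf (fr (j / 2) + 7 : ℝ) + Gf (fr (j / 2) - 7 : ℝ))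
    else
      Hf (fr (j / 2) : ℝ) + (4 / 9 : ℝ) • (Hf (fr (j / 2) + 7 : ℝ) + Hf (fr (j / 2) - 7 : ℝ))

theorem fOdd_succ (j : ℕ) : fOdd (j + 1) = if j % 2 = 0 then
      Gf (fr (j / 2) : ℝ) + (4 / 9 : ℝ) • (Gf (fr (j / 2) + 7 : ℝ) + Gf (fr (j / 2) - 7 : ℝ))
    else
      Hf (fr (j / 2) : ℝ) + (4 / 9 : ℝ) • (Hf (fr (j / 2) + 7 : ℝ) + Hf (fr (j / 2) - 7 : ℝ)) :=
  rfl

theorem per_Gf (l : ℕ) : Per (Gf l) := (per_Sf l).smul _
theorem per_Hf (l : ℕ) : Per (Hf l) := (per_Cf l).smul _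

theorem fr_sub (m : ℕ) : ((fr m : ℕ) : ℝ) - 7 = ((7 * m + 2 : ℕ) : ℝ) := by
  unfold fr; push_cast; ring

theorem fr_add (m : ℕ) : ((fr m : ℕ) : ℝ) + 7 = ((7 * m + 16 : ℕ) : ℝ) := by
  unfold fr; push_cast; ring

theorem fOdd_per (j : ℕ) : Per (fOdd j) := by
  rcases j with _ | j
  · unfold fOdd
    exact ((by exact_mod_cast per_Gf 7 : Per (Gf 7)).smul _).add
      ((by exact_mod_cast per_Gf 14 : Per (Gf 14)).smul _)
  · rw [fOdd_succ, fr_sub, fr_add]
    split_ifs
    · exact (per_Gf _).add (((per_Gf _).add (per_Gf _)).smul _)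
    · exact (per_Hf _).add (((per_Hf _).add (per_Hf _)).smul _)

theorem third_fOdd_zero : third (fOdd 0) = mulV rho vv := by
  unfold fOdd
  rw [third_add, third_smul, third_smul, third_Gf (by norm_num), third_Gf (by norm_num), rho_mul_vv]

theorem fr_ge (m : ℕ) : (9 : ℝ) ≤ fr m := by
  unfold fr; push_cast; have := Nat.cast_nonneg (α := ℝ) m; linarith

theorem third_fOdd_cos (m : ℕ) : third (fOdd (2 * m + 1)) = mulV rho (Cf (fr m)) := by
  have h := fr_ge m
  rw [fOdd_succ, if_pos (by omega), show 2 * m / 2 = m by omega, third_add, third_smul, third_add,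
    third_Gf (by linarith), third_Gf (by linarith), third_Gf (by linarith), rho_mul_Cf]

theorem third_fOdd_sin (m : ℕ) : third (fOdd (2 * m + 1 + 1)) = mulV rho (Sf (fr m)) := by
  have h := fr_ge m
  rw [fOdd_succ, if_neg (by omega), show (2 * m + 1) / 2 = m by omega, third_add, third_smul, third_add,
    third_Hf (by linarith), third_Hf (by linarith), third_Hf (by linarith), rho_mul_Sf]

theorem mulV_add (f g h : V) : mulV f (g + h) = mulV f g + mulV f h := by
  apply Subtype.ext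
  funext t
  exact mul_add _ _ _

theorem mulV_smul (f g : V) (c : ℝ) : mulV f (c • g) = c • mulV f g := by
  apply Subtype.ext
  funext t
  exact mul_left_comm _ _ _

theorem mulV_sum (f : V) (s : Finset ℕ) (g : ℕ → V) :
    mulV f (∑ i ∈ s, g i) = ∑ i ∈ s, mulV f (g i) := by
  classical
  induction s using Finset.induction_on with
  | empty =>
    simp only [sum_empty]
    apply Subtype.ext
    funext t
    exact mul_zero _
  | insert i s hi ih => rw [sum_insert hi, sum_insert hi, mulV_add, ih]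

theorem prod_bound (K : ℕ) (hK : 1 ≤ K) :
    9 * ∏ i ∈ range K, (((fr i : ℕ) : ℝ) ^ 2 - 7 ^ 2) < 4 * ∏ i ∈ range K, (((fr i : ℕ) : ℝ) ^ 2) := by
  obtain ⟨K, rfl⟩ : ∃ M, K = M + 1 := ⟨K - 1, by omega⟩
  rw [prod_range_succ', prod_range_succ']
  have h1 : ∏ i ∈ range K, (((fr (i + 1) : ℕ) : ℝ) ^ 2 - 7 ^ 2) ≤
      ∏ i ∈ range K, (((fr (i + 1) : ℕ) : ℝ) ^ 2) := by
    apply prod_le_prod
    · intro i _
      have := fr_ge (i + 1)
      nlinarith
    · intro i _
      have := fr_ge (i + 1)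
      linarith
  have h2 : 0 < ∏ i ∈ range K, (((fr (i + 1) : ℕ) : ℝ) ^ 2) := by
    apply prod_pos
    intro i _
    have := fr_ge (i + 1)
    positivity
  have h3 : ((fr 0 : ℕ) : ℝ) = 9 := by unfold fr; norm_num
  rw [h3]
  norm_num at h1 ⊢
  nlinarith

theorem regular_odd (K : ℕ) (hK : 1 ≤ K) : Regular (2 * K + 1) (fun j => third (fOdd j)) := by
  intro t c hc
  set l : ℕ → ℝ := fun m => ((fr m : ℕ) : ℝ) with hl
  have hl2 : ∀ m, 9 ≤ l m := fr_ge
  have e : (∑ j ∈ range (2 * K + 1), c j • third (fOdd j)) =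
      mulV rho (comb K l (fun m => c (2 * m + 1)) (fun m => c (2 * m + 2)) + c 0 • vv) := by
    rw [sum_range_succ', sum_range_double, mulV_add, mulV_smul, third_fOdd_zero]
    congr 1
    unfold comb
    rw [mulV_sum]
    apply sum_congr rfl
    intro m _
    rw [third_fOdd_cos, third_fOdd_sin, mulV_add, mulV_smul, mulV_smul]
  rw [e] at hc
  have hc2 := hc.mulV (g := rhoInv)
  rw [rhoInv_mul] at hc2
  have hv : ∀ t, ev t (aeval D (prd (range K) l) vv) ≠ 0 := by
    intro t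
    unfold vv
    rw [map_sub, map_smul, map_smul, aeval_prd_oneV, aeval_prd_Cf, map_sub, map_smul, map_smul,
      map_smul, map_smul]
    change (4 : ℝ) * ((∏ i ∈ range K, l i ^ 2) * 1) -
      9 * ((∏ i ∈ range K, (l i ^ 2 - 7 ^ 2)) * Real.cos (7 * t)) ≠ 0
    have h1 := prod_bound K hK
    have h2 : 0 < ∏ i ∈ range K, (l i ^ 2 - 7 ^ 2) := by
      apply prod_pos
      intro i _
      have := hl2 i
      nlinarith
    have h3 := Real.cos_le_one (7 * t)
    have h4 : 0 < (4 : ℝ) * ((∏ i ∈ range K, l i ^ 2) * 1) -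
      9 * ((∏ i ∈ range K, (l i ^ 2 - 7 ^ 2)) * Real.cos (7 * t)) := by
      have h5 : (∏ i ∈ range K, (l i ^ 2 - 7 ^ 2)) * Real.cos (7 * t) ≤
        (∏ i ∈ range K, (l i ^ 2 - 7 ^ 2)) * 1 := mul_le_mul_of_nonneg_left h3 h2.le
      simp only [hl] at h5 h1 ⊢
      linarith
    exact h4.ne'
  have hti := trig_indep_v K l (fun i _ => by have := hl2 i; linarith)
    (fun i _ j _ h => by
      have h2 : l i = l j := by
        have h1 := hl2 i; have h2 := hl2 j
        nlinarith [sq_nonneg (l i - l j)]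
      simp only [hl] at h2
      have h3 := Nat.cast_injective h2
      unfold fr at h3
      omega) vv hv _ _ (c 0) t hc2
  intro j hj
  rcases j with _ | j
  · exact hti.2
  · rcases Nat.even_or_odd' j with ⟨m, hm | hm⟩
    · rw [hm]; exact (hti.1 m (by omega)).1
    · rw [hm]; exact (hti.1 m (by omega)).2

theorem exists_nondegenerate_near (n : ℕ) (hn : 4 ≤ n) :
    ∀ U ∈ 𝓝 (circ n 1), ∃ γ ∈ U, Nondegenerate γ := by
  rcases Nat.even_or_odd' n with ⟨K, hK | hK⟩
  · exact circ_one_mem n (2 * (K - 1)) (by omega) fEven fEven_per (regular_even (K - 1))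
  · exact circ_one_mem n (2 * (K - 1) + 1) (by omega) fOdd fOdd_per
      (regular_odd _ (by omega))

end Run7.h773
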