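import Pool.Agent.Run7.h773.ChainCert1
import Pool.Agent.Run7.h773.ChainCert2

/-!
The graph has the strict chain of domination parameters.
-/

set_option autoImplicit false

namespace Run7.h773.Chain

lemma all_sts : ∀ s ∈ sts0 ++ sts1 ++ sts2 ++ sts3 ++ sts4 ++ sts5 ++ sts6,
    vsr 268435455 24 s.need s.slack s.c s.c2 s.Tm s.Cm = true := by
  intro s hs
  simp only [List.mem_append] at hs
  rcases hs with (((((h | h) | h) | h) | h) | h) | h
  · exact List.all_eq_true.mp grp0 s h
  · exact List.all_eq_true.mp grp1 s h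
  · exact List.all_eq_true.mp grp2 s h
  · exact List.all_eq_true.mp grp3 s h
  · exact List.all_eq_true.mp grp4 s h
  · exact List.all_eq_true.mp grp5 s h
  · exact List.all_eq_true.mp grp6 s h

lemma top : vsrG 268435455 (memSt (sts0 ++ sts1 ++ sts2 ++ sts3 ++ sts4 ++ sts5 ++ sts6)) 5 12 16 0 0 []
    [16421, 106498, 32805, 6408, 17936, 165, 196928, 5280, 2376, 147984, 5264, 10504, 5256, 43010, 16913, 40966, 196674, 197184, 26476544, 206045184, 137625600, 15728640, 40370176, 44302336, 218365952, 113246208, 117964800, 152567808] = true := by decide +kernel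

lemma cert_Gamma : vsr (2 ^ 28 - 1) (28 + 1) 12 (28 - 12) 0 0 []
    (ms nb (List.finRange 28)) = true := by
  rw [masks]
  exact vsr_split 268435455 24 5 _ all_sts _ _ _ _ _ _ top

theorem chain : ir G < dom G ∧ dom G < idom G ∧ idom G < indep G ∧ indep G < udom G ∧
    udom G < uir G :=
  chain_of rep 7 8 9 11 12 [0, 1, 5, 13, 18, 19, 22] [0, 1, 3, 10, 17, 18, 19, 22] [0, 1, 3, 10, 17, 18, 19, 21, 25] [0, 1, 3, 4, 6, 7, 18, 19, 21, 25]
    [0, 1, 3, 4, 6, 7, 18, 23, 24, 25, 26] [0, 2, 3, 5, 11, 16, 17, 18, 23, 24, 25, 26]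
    (by decide +kernel) (by decide +kernel) cert_ir (by decide +kernel) cert_gamma
    (by decide +kernel) (by decide +kernel) cert_i (by decide +kernel) (by decide +kernel)
    (by decide +kernel) (by decide +kernel) (by decide +kernel) (by decide +kernel) cert_beta
    (by decide +kernel) (by decide +kernel) (by decide +kernel) (by decide +kernel) cert_Gamma
    (by norm_num) (by decide +kernel) (by decide +kernel) (by decide +kernel)

end Run7.h773.Chain
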