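import Mathlib

/-!
Domination parameters of graphs and search procedures certifying bounds on them.
-/

set_option autoImplicit false

namespace Run7.h773.Chain

open Finset

section Defs

variable {V : Type*} (G : SimpleGraph V)

/-- `v` belongs to the closed neighbourhood of `u`. -/
def Cl (u v : V) : Prop := u = v ∨ G.Adj u v

/-- `S` is dominating. -/
def Dominating (S : Finset V) : Prop := ∀ v, ∃ u ∈ S, Cl G u v

/-- `S` is independent. -/
def Independent (S : Finset V) : Prop := ∀ u ∈ S, ∀ v ∈ S, ¬ G.Adj u v

/-- `S` is irredundant: every `v ∈ S` has a private neighbour, an element of `N[v]` outside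
`N[S \ {v}]`. -/
def Irredundant (S : Finset V) : Prop :=
  ∀ v ∈ S, ∃ x, Cl G v x ∧ ∀ u ∈ S, u ≠ v → ¬ Cl G u x

/-- The lower irredundance number. -/
noncomputable def ir : ℕ := sInf {k | ∃ S : Finset V, Maximal (Irredundant G) S ∧ S.card = k}

/-- The domination number. -/
noncomputable def dom : ℕ := sInf {k | ∃ S : Finset V, Dominating G S ∧ S.card = k}

/-- The independent domination number. -/
noncomputable def idom : ℕ := sInf {k | ∃ S : Finset V, Maximal (Independent G) S ∧ S.card = k}

/-- The independence number. -/
noncomputable def indep : ℕ := sSup {k | ∃ S : Finset V, Independent G S ∧ S.card = k}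

/-- The upper domination number. -/
noncomputable def udom : ℕ := sSup {k | ∃ S : Finset V, Minimal (Dominating G) S ∧ S.card = k}

/-- The upper irredundance number. -/
noncomputable def uir : ℕ := sSup {k | ∃ S : Finset V, Irredundant G S ∧ S.card = k}

end Defs

section Basic

variable {V : Type*} {G : SimpleGraph V}

lemma Irredundant.mono {S T : Finset V} (h : Irredundant G S) (hT : T ⊆ S) : Irredundant G T := by
  intro v hv
  obtain ⟨x, hx, h2⟩ := h v (hT hv)
  exact ⟨x, hx, fun u hu => h2 u (hT hu)⟩

lemma maximal_indep_dominating {S : Finset V} (h : Maximal (Independent G) S) :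
    Dominating G S := by
  classical
  intro v
  by_contra hc
  push Not at hc
  have hv : v ∉ S := fun hv => hc v hv (Or.inl rfl)
  have hind : Independent G (insert v S) := by
    intro a ha b hb
    rw [mem_insert] at ha hb
    rcases ha with rfl | ha <;> rcases hb with rfl | hb
    · exact G.irrefl
    · intro hab; exact hc b hb (Or.inr hab.symm)
    · intro hab; exact hc a ha (Or.inr hab)
    · exact h.1 a ha b hb
  have := h.2 hind (subset_insert v S)
  exact hv (this (mem_insert_self v S))

/-- A minimal dominating set is irredundant. -/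
lemma minimal_dom_irredundant {S : Finset V} (h : Minimal (Dominating G) S) :
    Irredundant G S := by
  classical
  intro v hv
  by_contra hc
  push Not at hc
  have hd : Dominating G (S.erase v) := by
    intro x
    obtain ⟨u, hu, hux⟩ := h.1 x
    by_cases huv : u = v
    · subst huv
      obtain ⟨u', hu', hne, hcl⟩ := hc x hux
      exact ⟨u', mem_erase.mpr ⟨hne, hu'⟩, hcl⟩
    · exact ⟨u, mem_erase.mpr ⟨huv, hu⟩, hux⟩
  have := h.2 hd (erase_subset v S)
  exact (mem_erase.mp (this hv)).1 rfl

/-- A dominating irredundant set is a minimal dominating set. -/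
lemma minimal_of_irredundant {S : Finset V} (hd : Dominating G S) (hi : Irredundant G S) :
    Minimal (Dominating G) S := by
  refine ⟨hd, fun T hT hTS v hv => ?_⟩
  obtain ⟨x, hx, h2⟩ := hi v hv
  obtain ⟨u, hu, hux⟩ := hT x
  by_contra hvT
  exact h2 u (hTS hu) (fun h => hvT (h ▸ hu)) hux

end Basic

/-! ### Graphs given by bit masks -/

/-- Bit `i` of `m`. -/
def tb (m i : ℕ) : Bool := Nat.beq (Nat.land (Nat.shiftRight m i) 1) 1

lemma tb_eq (m i : ℕ) : tb m i = m.testBit i := by
  rw [Nat.testBit_eq_decide_div_mod_eq]
  unfold tb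
  have h1 : Nat.land (Nat.shiftRight m i) 1 = m / 2 ^ i % 2 := by
    show (m >>> i) &&& 1 = _
    rw [Nat.shiftRight_eq_div_pow, Nat.and_one_is_mod]
  rw [h1]
  by_cases h : m / 2 ^ i % 2 = 1
  · rw [h]; simp
  · have : Nat.beq (m / 2 ^ i % 2) 1 = false := by
      cases hb : Nat.beq (m / 2 ^ i % 2) 1
      · rfl
      · exact absurd (Nat.eq_of_beq_eq_true hb) h
    rw [this]; simp [h]

end Run7.h773.Chain
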