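import Pool.Agent.Run7.h773.ChainSearch

/-!
A faster search for large irredundant dominating sets.
-/

set_option autoImplicit false

namespace Run7.h773.Chain

open Finset

/-- `List.all`, by the recursor. -/
noncomputable def allR (p : ℕ → Bool) (l : List ℕ) : Bool :=
  List.rec true (fun x _ ih => cond (p x) ih false) l

lemma allR_eq (p : ℕ → Bool) (l : List ℕ) : allR p l = l.all p := by
  induction l with
  | nil => rfl
  | cons x l ih =>
    show cond (p x) (allR p l) false = _
    rw [ih, List.all_cons]
    cases p x <;> rfl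

/-- The private sets (with respect to `e'`) of the members of `Tm` which meet `g`. -/
noncomputable def privK (g e' : ℕ) (Tm : List ℕ) : List ℕ → (List ℕ → Bool) → Bool :=
  List.rec (fun acc k => k acc)
    (fun z _ ih acc k => cond (Nat.beq (Nat.land z g) 0) (ih acc k)
      (seqN (Nat.land z e') fun p => ih (p :: acc) k)) Tm

lemma privK_sound (g e' : ℕ) (Tm acc : List ℕ) (k : List ℕ → Bool)
    (h : privK g e' Tm acc k = true) :
    ∃ L : List ℕ, (∀ p ∈ L, p ∈ acc ∨ ∃ z ∈ Tm, p = Nat.land z e') ∧ k L = true := by
  induction Tm generalizing acc with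
  | nil => exact ⟨acc, fun p hp => Or.inl hp, h⟩
  | cons z Tm ih =>
    have h' : cond (Nat.beq (Nat.land z g) 0) (privK g e' Tm acc k)
      (seqN (Nat.land z e') fun p => privK g e' Tm (p :: acc) k) = true := h
    rw [seqN_eq] at h'
    cases hb : Nat.beq (Nat.land z g) 0 with
    | true =>
      rw [hb] at h'
      obtain ⟨L, hL, hk⟩ := ih acc h'
      refine ⟨L, fun p hp => ?_, hk⟩
      rcases hL p hp with h1 | ⟨z', hz', h1⟩
      · exact Or.inl h1
      · exact Or.inr ⟨z', List.mem_cons_of_mem _ hz', h1⟩
    | false =>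
      rw [hb] at h'
      obtain ⟨L, hL, hk⟩ := ih (Nat.land z e' :: acc) h'
      refine ⟨L, fun p hp => ?_, hk⟩
      rcases hL p hp with h1 | ⟨z', hz', h1⟩
      · rcases List.mem_cons.mp h1 with h1 | h1
        · exact Or.inr ⟨z, List.mem_cons_self, h1⟩
        · exact Or.inl h1
      · exact Or.inr ⟨z', List.mem_cons_of_mem _ hz', h1⟩

/-- The filter on candidates. -/
noncomputable def keep (u : ℕ) (L : List ℕ) (w : ℕ) : Bool :=
  cond (Nat.beq (Nat.land w u) 0) false (allR (fun p => cond (Nat.beq (Nat.land p w) p) false true) L)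

/-- Strict filter, with the length and the union of the result. -/
noncomputable def filt (p : ℕ → Bool) (l : List ℕ) :
    List ℕ → ℕ → ℕ → (List ℕ → ℕ → ℕ → Bool) → Bool :=
  List.rec (fun acc cnt uni k => k acc cnt uni)
    (fun x _ ih acc cnt uni k => cond (p x)
      (seqN (Nat.lor uni x) fun u' => seqN (Nat.succ cnt) fun c' => ih (x :: acc) c' u' k)
      (ih acc cnt uni k)) l

lemma filt_eq (p : ℕ → Bool) (l acc : List ℕ) (cnt uni : ℕ) (k : List ℕ → ℕ → ℕ → Bool) :
    filt p l acc cnt uni k = k ((l.filter p).reverse ++ acc) (cnt + (l.filter p).length)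
      ((l.filter p).foldl Nat.lor uni) := by
  induction l generalizing acc cnt uni with
  | nil => rfl
  | cons x l ih =>
    show cond (p x) (seqN (Nat.lor uni x) fun u' => seqN (Nat.succ cnt) fun c' =>
      filt p l (x :: acc) c' u' k) (filt p l acc cnt uni k) = _
    rw [seqN_eq, seqN_eq, ih, ih]
    cases hx : p x
    · simp [hx]
    · simp [hx, Nat.succ_eq_add_one, Nat.add_assoc, Nat.add_comm 1]

/-- Last step of the search: the recursive call. -/
noncomputable def st4 (full : ℕ) (ih : ℕ → ℕ → ℕ → ℕ → List ℕ → List ℕ → Bool)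
    (need' c' c2' : ℕ) (Tm' : List ℕ) (Cs' : List ℕ) (len uni : ℕ) : Bool :=
  cond (Nat.ble (Nat.succ len) need') true (cond (Nat.beq uni full)
    (seqN (Nat.sub len need') fun s' => ih need' s' c' c2' Tm' Cs') true)

/-- Filtering the candidates. -/
noncomputable def st3 (full : ℕ) (ih : ℕ → ℕ → ℕ → ℕ → List ℕ → List ℕ → Bool)
    (c' c2' : ℕ) (Tm' Cs : List ℕ) (need' u : ℕ) (L : List ℕ) : Bool :=
  filt (keep u L) Cs [] 0 c' (st4 full ih need' c' c2' Tm')

/-- Computing the private sets. -/
noncomputable def st2 (full : ℕ) (ih : ℕ → ℕ → ℕ → ℕ → List ℕ → List ℕ → Bool)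
    (x : ℕ) (Tm Cs : List ℕ) (c' c2' need' g u e' : ℕ) : Bool :=
  privK g e' Tm [Nat.land x e'] (st3 full ih c' c2' (x :: Tm) Cs need' u)

/-- Including the candidate `x`. -/
noncomputable def st1 (full : ℕ) (ih : ℕ → ℕ → ℕ → ℕ → List ℕ → List ℕ → Bool)
    (need : ℕ) (x : ℕ) (Tm Cs : List ℕ) (g c' c2' : ℕ) : Bool :=
  seqN (Nat.pred need) fun need' => seqN (Nat.xor full c') fun u =>
    seqN (Nat.xor c' c2') (st2 full ih x Tm Cs c' c2' need' g u)

/-- One step of the search. -/
noncomputable def vstep (full : ℕ) (ih : ℕ → ℕ → ℕ → ℕ → List ℕ → List ℕ → Bool)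
    (need slack c c2 : ℕ) (Tm Cm : List ℕ) : Bool :=
  List.rec (motive := fun _ => Bool)
    (cond (Nat.beq need 0) (cond (Nat.beq c full) false true) true)
    (fun x Cs _ =>
      cond (cond (Nat.beq slack 0) true (seqN (Nat.pred slack) fun s' => ih need s' c c2 Tm Cs))
        (seqN (Nat.land x (Nat.xor c c2)) fun g => seqN (Nat.lor c x) fun c' =>
          seqN (Nat.lor c2 (Nat.land c x)) (st1 full ih need x Tm Cs g c')) false)
    Cm

/-- The search with a given base case. -/
noncomputable def vsrG (full : ℕ) (base : ℕ → ℕ → ℕ → ℕ → List ℕ → List ℕ → Bool) (fuel : ℕ) :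
    ℕ → ℕ → ℕ → ℕ → List ℕ → List ℕ → Bool :=
  Nat.rec base (fun _ ih => vstep full ih) fuel

/-- Search for irredundant dominating sets with many elements. -/
noncomputable def vsr (full fuel : ℕ) : ℕ → ℕ → ℕ → ℕ → List ℕ → List ℕ → Bool :=
  vsrG full (fun _ _ _ _ _ _ => false) fuel

lemma vsr_nil (full f need slack c c2 : ℕ) (Tm : List ℕ) :
    vsr full (f + 1) need slack c c2 Tm []
      = cond (Nat.beq need 0) (cond (Nat.beq c full) false true) true := rfl

lemma privK_eq (g e' : ℕ) (Tm acc : List ℕ) :
    ∃ L, ∀ k : List ℕ → Bool, privK g e' Tm acc k = k L := by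
  induction Tm generalizing acc with
  | nil => exact ⟨acc, fun k => rfl⟩
  | cons z Tm ih =>
    cases hb : Nat.beq (Nat.land z g) 0 with
    | true =>
      obtain ⟨L, hL⟩ := ih acc
      refine ⟨L, fun k => ?_⟩
      show cond (Nat.beq (Nat.land z g) 0) (privK g e' Tm acc k)
        (seqN (Nat.land z e') fun p => privK g e' Tm (p :: acc) k) = _
      rw [hb]
      exact hL k
    | false =>
      obtain ⟨L, hL⟩ := ih (Nat.land z e' :: acc)
      refine ⟨L, fun k => ?_⟩
      show cond (Nat.beq (Nat.land z g) 0) (privK g e' Tm acc k)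
        (seqN (Nat.land z e') fun p => privK g e' Tm (p :: acc) k) = _
      rw [hb, seqN_eq]
      exact hL k

lemma vstep_cons {full : ℕ} {ih : ℕ → ℕ → ℕ → ℕ → List ℕ → List ℕ → Bool}
    {need slack c c2 : ℕ} {Tm : List ℕ} {x : ℕ} {Cs : List ℕ} :
    vstep full ih need slack c c2 Tm (x :: Cs) = true ↔
    (slack = 0 ∨ ih need (Nat.pred slack) c c2 Tm Cs = true) ∧
    privK (Nat.land x (Nat.xor c c2)) (Nat.xor (Nat.lor c x) (Nat.lor c2 (Nat.land c x))) Tm
      [Nat.land x (Nat.xor (Nat.lor c x) (Nat.lor c2 (Nat.land c x)))] (fun L =>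
        st4 full ih (Nat.pred need) (Nat.lor c x) (Nat.lor c2 (Nat.land c x)) (x :: Tm)
          (Cs.filter (keep (Nat.xor full (Nat.lor c x)) L)).reverse
          (Cs.filter (keep (Nat.xor full (Nat.lor c x)) L)).length
          ((Cs.filter (keep (Nat.xor full (Nat.lor c x)) L)).foldl Nat.lor (Nat.lor c x))) = true := by
  have h' : vstep full ih need slack c c2 Tm (x :: Cs) =
      cond (cond (Nat.beq slack 0) true (seqN (Nat.pred slack) fun s' =>
      ih need s' c c2 Tm Cs))
            (seqN (Nat.land x (Nat.xor c c2)) fun g => seqN (Nat.lor c x) fun c' =>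
              seqN (Nat.lor c2 (Nat.land c x)) (st1 full ih need x Tm Cs g c')) false := rfl
  simp only [seqN_eq, st1, st2] at h'
  have h3 : (st3 full ih (Nat.lor c x) (Nat.lor c2 (Nat.land c x)) (x :: Tm) Cs
      (Nat.pred need) (Nat.xor full (Nat.lor c x))) = fun L =>
        st4 full ih (Nat.pred need) (Nat.lor c x) (Nat.lor c2 (Nat.land c x)) (x :: Tm)
          (Cs.filter (keep (Nat.xor full (Nat.lor c x)) L)).reverse
          (Cs.filter (keep (Nat.xor full (Nat.lor c x)) L)).length
          ((Cs.filter (keep (Nat.xor full (Nat.lor c x)) L)).foldl Nat.lor (Nat.lor c x)) := by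
    funext L
    unfold st3
    rw [filt_eq, List.append_nil, Nat.zero_add]
  rw [h3] at h'
  rw [h']
  cases hs : Nat.beq slack 0 with
  | true =>
    rw [cond_true, cond_true]
    constructor
    · intro h; exact ⟨Or.inl (Nat.eq_of_beq_eq_true hs), h⟩
    · intro h; exact h.2
  | false =>
    have hs0 := Nat.ne_of_beq_eq_false hs
    rw [cond_false]
    cases hv : ih need (Nat.pred slack) c c2 Tm Cs with
    | true =>
      rw [cond_true]
      constructor
      · intro h; exact ⟨Or.inr rfl, h⟩
      · intro h; exact h.2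
    | false =>
      rw [cond_false]
      constructor
      · intro h; exact absurd h (by simp)
      · rintro ⟨h | h, -⟩
        · exact absurd h hs0
        · exact absurd h (by simp)

lemma vsr_cons (full f need slack c c2 : ℕ) (Tm : List ℕ) (x : ℕ) (Cs : List ℕ)
    (h : vsr full (f + 1) need slack c c2 Tm (x :: Cs) = true) :
    (slack = 0 ∨ vsr full f need (Nat.pred slack) c c2 Tm Cs = true) ∧
    privK (Nat.land x (Nat.xor c c2)) (Nat.xor (Nat.lor c x) (Nat.lor c2 (Nat.land c x))) Tm
      [Nat.land x (Nat.xor (Nat.lor c x) (Nat.lor c2 (Nat.land c x)))] (fun L =>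
        st4 full (vsr full f) (Nat.pred need) (Nat.lor c x) (Nat.lor c2 (Nat.land c x)) (x :: Tm)
          (Cs.filter (keep (Nat.xor full (Nat.lor c x)) L)).reverse
          (Cs.filter (keep (Nat.xor full (Nat.lor c x)) L)).length
          ((Cs.filter (keep (Nat.xor full (Nat.lor c x)) L)).foldl Nat.lor (Nat.lor c x))) = true :=
  vstep_cons.mp h

lemma st4_true {full : ℕ} {ih : ℕ → ℕ → ℕ → ℕ → List ℕ → List ℕ → Bool}
    {need' c' c2' : ℕ} {Tm' Cs' : List ℕ} {len uni : ℕ}
    (h : st4 full ih need' c' c2' Tm' Cs' len uni = true) :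
    len < need' ∨ uni ≠ full ∨ ih need' (len - need') c' c2' Tm' Cs' = true := by
  unfold st4 at h
  rw [seqN_eq] at h
  cases h1 : Nat.ble (Nat.succ len) need' with
  | true =>
    left
    exact Nat.le_of_ble_eq_true h1
  | false =>
    rw [h1, cond_false] at h
    cases h2 : Nat.beq uni full with
    | true =>
      rw [h2, cond_true] at h
      exact Or.inr (Or.inr h)
    | false =>
      exact Or.inr (Or.inl (Nat.ne_of_beq_eq_false h2))

lemma st4_iff {full : ℕ} {ih : ℕ → ℕ → ℕ → ℕ → List ℕ → List ℕ → Bool}
    {need' c' c2' : ℕ} {Tm' Cs' : List ℕ} {len uni : ℕ} :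
    st4 full ih need' c' c2' Tm' Cs' len uni = true ↔
    len < need' ∨ uni ≠ full ∨ ih need' (len - need') c' c2' Tm' Cs' = true := by
  refine ⟨st4_true, fun h => ?_⟩
  unfold st4
  rw [seqN_eq]
  cases h1 : Nat.ble (Nat.succ len) need' with
  | true => rfl
  | false =>
    rw [cond_false]
    cases h2 : Nat.beq uni full with
    | false => rfl
    | true =>
      rw [cond_true]
      rcases h with h | h | h
      · have := Nat.ble_eq_true_of_le (show Nat.succ len ≤ need' from h)
        rw [this] at h1
        exact absurd h1 (by simp)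
      · exact absurd (Nat.eq_of_beq_eq_true h2) h
      · exact h

lemma vstep_mono {full : ℕ} {ih₁ ih₂ : ℕ → ℕ → ℕ → ℕ → List ℕ → List ℕ → Bool}
    (hih : ∀ a b c d e f, ih₁ a b c d e f = true → ih₂ a b c d e f = true)
    {need slack c c2 : ℕ} {Tm Cm : List ℕ} (h : vstep full ih₁ need slack c c2 Tm Cm = true) :
    vstep full ih₂ need slack c c2 Tm Cm = true := by
  cases Cm with
  | nil => exact h
  | cons x Cs =>
    rw [vstep_cons] at h ⊢
    refine ⟨h.1.imp id (hih _ _ _ _ _ _), ?_⟩
    obtain ⟨L, hL⟩ := privK_eq (Nat.land x (Nat.xor c c2))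
      (Nat.xor (Nat.lor c x) (Nat.lor c2 (Nat.land c x))) Tm
      [Nat.land x (Nat.xor (Nat.lor c x) (Nat.lor c2 (Nat.land c x)))]
    have h2 := h.2
    rw [hL, st4_iff] at h2
    rw [hL, st4_iff]
    exact h2.imp id (Or.imp id (hih _ _ _ _ _ _))

lemma vsrG_mono {full : ℕ} {b₁ b₂ : ℕ → ℕ → ℕ → ℕ → List ℕ → List ℕ → Bool}
    (hb : ∀ a b c d e f, b₁ a b c d e f = true → b₂ a b c d e f = true) (fuel : ℕ) :
    ∀ a b c d e f, vsrG full b₁ fuel a b c d e f = true → vsrG full b₂ fuel a b c d e f = true := by
  induction fuel with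
  | zero => exact hb
  | succ n ih =>
    intro a b c d e f h
    exact vstep_mono ih h

lemma vsr_add (full b a : ℕ) : vsr full (b + a) = vsrG full (vsr full b) a := by
  induction a with
  | zero => rfl
  | succ a ih =>
    show vstep full (vsr full (b + a)) = vstep full (vsrG full (vsr full b) a)
    rw [ih]

/-- Equality test on lists. -/
noncomputable def eqL (l : List ℕ) : List ℕ → Bool :=
  List.rec (fun m => List.rec (motive := fun _ => Bool) true (fun _ _ _ => false) m)
    (fun x _ ih m => List.rec (motive := fun _ => Bool) false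
      (fun y ys _ => cond (Nat.beq x y) (ih ys) false) m) l

lemma eqL_eq {l m : List ℕ} (h : eqL l m = true) : l = m := by
  induction l generalizing m with
  | nil =>
    cases m with
    | nil => rfl
    | cons y ys => exact absurd (show false = true from h) (by simp)
  | cons x xs ih =>
    cases m with
    | nil => exact absurd (show false = true from h) (by simp)
    | cons y ys =>
      have h' : cond (Nat.beq x y) (eqL xs ys) false = true := h
      cases hb : Nat.beq x y with
      | true =>
        rw [hb, cond_true] at h'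
        rw [Nat.eq_of_beq_eq_true hb, ih h']
      | false =>
        rw [hb] at h'
        exact absurd h' (by simp)

/-- A state of the search. -/
structure St where
  /-- number of elements needed -/
  need : ℕ
  /-- slack -/
  slack : ℕ
  /-- covered vertices -/
  c : ℕ
  /-- vertices covered twice -/
  c2 : ℕ
  /-- chosen vertices -/
  Tm : List ℕ
  /-- candidates -/
  Cm : List ℕ

/-- Membership in a list of states. -/
noncomputable def memSt (L : List St) (need slack c c2 : ℕ) (Tm Cm : List ℕ) : Bool :=
  List.rec (motive := fun _ => Bool) false (fun s _ ih =>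
    cond (cond (Nat.beq s.c c) (cond (Nat.beq s.c2 c2) (cond (Nat.beq s.need need)
      (cond (Nat.beq s.slack slack) (cond (eqL s.Tm Tm) (eqL s.Cm Cm) false) false) false) false)
      false) true ih) L

lemma memSt_mem {L : List St} {need slack c c2 : ℕ} {Tm Cm : List ℕ}
    (h : memSt L need slack c c2 Tm Cm = true) :
    (⟨need, slack, c, c2, Tm, Cm⟩ : St) ∈ L := by
  induction L with
  | nil => exact absurd (show false = true from h) (by simp)
  | cons s L ih =>
    have h' : cond (cond (Nat.beq s.c c) (cond (Nat.beq s.c2 c2) (cond (Nat.beq s.need need)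
      (cond (Nat.beq s.slack slack) (cond (eqL s.Tm Tm) (eqL s.Cm Cm) false) false) false) false)
      false) true (memSt L need slack c c2 Tm Cm) = true := h
    rcases hb : (cond (Nat.beq s.c c) (cond (Nat.beq s.c2 c2) (cond (Nat.beq s.need need)
      (cond (Nat.beq s.slack slack) (cond (eqL s.Tm Tm) (eqL s.Cm Cm) false) false) false) false)
      false) with _ | _
    · rw [hb] at h'
      exact List.mem_cons_of_mem _ (ih h')
    · rcases h1 : Nat.beq s.c c with _ | _ <;> rw [h1] at hb
      · exact absurd hb (by simp)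
      rcases h2 : Nat.beq s.c2 c2 with _ | _ <;> rw [h2] at hb
      · exact absurd hb (by simp)
      rcases h3 : Nat.beq s.need need with _ | _ <;> rw [h3] at hb
      · exact absurd hb (by simp)
      rcases h4 : Nat.beq s.slack slack with _ | _ <;> rw [h4] at hb
      · exact absurd hb (by simp)
      rcases h5 : eqL s.Tm Tm with _ | _ <;> rw [h5] at hb
      · exact absurd hb (by simp)
      have h6 : eqL s.Cm Cm = true := hb
      have e1 := Nat.eq_of_beq_eq_true h1
      have e2 := Nat.eq_of_beq_eq_true h2
      have e3 := Nat.eq_of_beq_eq_true h3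
      have e4 := Nat.eq_of_beq_eq_true h4
      have e5 := eqL_eq h5
      have e6 := eqL_eq h6
      rw [← e1, ← e2, ← e3, ← e4, ← e5, ← e6]
      exact List.mem_cons_self

/-- Splitting the search. -/
lemma vsr_split (full b a : ℕ) (L : List St)
    (hL : ∀ s ∈ L, vsr full b s.need s.slack s.c s.c2 s.Tm s.Cm = true)
    (need slack c c2 : ℕ) (Tm Cm : List ℕ)
    (h : vsrG full (memSt L) a need slack c c2 Tm Cm = true) :
    vsr full (b + a) need slack c c2 Tm Cm = true := by
  rw [vsr_add]
  refine vsrG_mono (fun a b c d e f h => ?_) a _ _ _ _ _ _ h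
  exact hL _ (memSt_mem h)

section Sound

variable {n : ℕ} {G : SimpleGraph (Fin n)} {nb : ℕ → ℕ}

lemma keep_of (hR : Rep G nb) {S : Finset (Fin n)} (hS : Irredundant G S) (T : List (Fin n))
    (hT : T.Nodup) (w : Fin n) (hw : w ∈ S) (hwT : w ∉ T) (hsub : ∀ z ∈ T, z ∈ S) (L : List ℕ)
    (hL : ∀ p ∈ L, ∃ z ∈ ms nb T, p = Nat.land z (Nat.xor (cov nb T) (cov2 nb T))) :
    keep (Nat.xor (2 ^ n - 1) (cov nb T)) L (nb w) = true := by
  have hkeep : ∀ (u : ℕ) (w : ℕ), (!Nat.beq (Nat.land w u) 0) = true ∧
      (L.all fun p => !Nat.beq (Nat.land p w) p) = true → keep u L w = true := by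
    rintro u w ⟨h1, h2⟩
    rw [Bool.not_eq_true'] at h1
    unfold keep
    rw [h1, cond_false, allR_eq]
    rw [List.all_eq_true] at h2 ⊢
    intro p hp
    have := h2 p hp
    rw [Bool.not_eq_true'] at this
    rw [this]
    rfl
  apply hkeep
  constructor
  · obtain ⟨v, hv, h2⟩ := hS w hw
    refine land_ne_zero (i := v) ((hR.cl w v).mpr hv) ?_
    rw [tb_xor, Nat.testBit_two_pow_sub_one]
    have : ¬ (cov nb T).testBit v = true := by
      rw [mem_cov]
      rintro ⟨u, hu, h3⟩
      exact h2 u (hsub u hu) (fun h => hwT (h ▸ hu)) ((hR.cl u v).mp h3)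
    rw [Bool.not_eq_true] at this
    rw [this]
    simp
  · rw [List.all_eq_true]
    intro p hp
    obtain ⟨m, hm, rfl⟩ := hL p hp
    obtain ⟨z, hz, rfl⟩ := List.mem_map.mp hm
    obtain ⟨v, hv, h2⟩ := hS z (hsub z hz)
    have hzw : w ≠ z := fun h => hwT (h ▸ hz)
    have hbit := (hR.cl z v).mpr hv
    have h3 : ¬ (nb w).testBit v = true := fun h => h2 w hw hzw ((hR.cl w v).mp h)
    have h4 : ¬ (cov2 nb T).testBit v = true := by
      rw [mem_cov2 T hT]
      rintro ⟨a, ha, b, hb, hab, h5, h6⟩
      have ha' : a = z := by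
        by_contra hne
        exact h2 a (hsub a ha) hne ((hR.cl a v).mp h5)
      have hb' : b = z := by
        by_contra hne
        exact h2 b (hsub b hb) hne ((hR.cl b v).mp h6)
      exact hab (ha'.trans hb'.symm)
    rw [Bool.not_eq_true] at h3 h4
    rw [Bool.not_eq_true']
    cases hb : Nat.beq (Nat.land (Nat.land (nb z) (Nat.xor (cov nb T) (cov2 nb T))) (nb w))
      (Nat.land (nb z) (Nat.xor (cov nb T) (cov2 nb T)))
    · rfl
    · exfalso
      have h7 := Nat.eq_of_beq_eq_true hb
      have h8 : (Nat.land (nb z) (Nat.xor (cov nb T) (cov2 nb T))).testBit v = true := by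
        rw [tb_land, tb_xor, hbit, (mem_cov T v).mpr ⟨z, hz, hbit⟩, h4]
        rfl
      rw [← h7, tb_land, h3] at h8
      simp at h8

theorem vsr_sound (hR : Rep G nb) (fuel : ℕ) : ∀ (need slack : ℕ) (T C : List (Fin n)),
    (T ++ C).Nodup → C.length = need + slack →
    vsr (2 ^ n - 1) fuel need slack (cov nb T) (cov2 nb T) (ms nb T) (ms nb C) = true →
    ∀ S : Finset (Fin n), Irredundant G S → Dominating G S → (∀ z ∈ T, z ∈ S) →
      (∀ z ∈ S, z ∈ T ++ C) → ¬ need + T.length ≤ S.card := by
  induction fuel with
  | zero => intro need slack T C _ _ h; exact absurd (show false = true from h) (by simp)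
  | succ f ih =>
    intro need slack T C hnd hlen h S hirr hdom hTS hSC hcard
    have hcardle : S.card ≤ T.length + C.length := by
      have : S ⊆ (T ++ C).toFinset := fun z hz => List.mem_toFinset.mpr (hSC z hz)
      calc S.card ≤ (T ++ C).toFinset.card := card_le_card this
        _ ≤ (T ++ C).length := List.toFinset_card_le _
        _ = T.length + C.length := List.length_append
    cases C with
    | nil =>
      rw [show ms nb ([] : List (Fin n)) = [] from rfl, vsr_nil] at h
      simp only [List.length_nil, add_zero] at hcardle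
      have h0 : need = 0 := by omega
      subst h0
      have hf : cov nb T = 2 ^ n - 1 := eq_full hR T fun v => by
        obtain ⟨u, hu, hc⟩ := hdom v
        exact ⟨u, by simpa using hSC u hu, hc⟩
      rw [hf] at h
      simp at h
    | cons x C =>
      rw [show ms nb (x :: C) = nb x :: ms nb C from rfl] at h
      obtain ⟨h1, h2⟩ := vsr_cons _ _ _ _ _ _ _ _ _ h
      have hxT : x ∉ T := by
        intro hx
        exact (List.nodup_append.mp hnd).2.2 x hx x List.mem_cons_self rfl
      have hxC : x ∉ C := (List.nodup_cons.mp (List.nodup_append.mp hnd).2.1).1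
      have hTnd := (List.nodup_append.mp hnd).1
      have hCnd := (List.nodup_cons.mp (List.nodup_append.mp hnd).2.1).2
      have hdisj : ∀ z ∈ T, z ∉ C := fun z hz hz' =>
        (List.nodup_append.mp hnd).2.2 z hz z (List.mem_cons_of_mem _ hz') rfl
      rw [List.length_cons] at hlen
      by_cases hxS : x ∈ S
      · obtain ⟨L, hL, h3⟩ := privK_sound _ _ _ _ _ h2
        have hL' : ∀ p ∈ L, ∃ z ∈ ms nb (x :: T), p = Nat.land z
            (Nat.xor (cov nb (x :: T)) (cov2 nb (x :: T))) := by
          intro p hp
          rcases hL p hp with h4 | ⟨z, hz, h4⟩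
          · exact ⟨nb x, List.mem_cons_self, List.mem_singleton.mp h4⟩
          · exact ⟨z, List.mem_cons_of_mem _ hz, h4⟩
        have hfil0 : (ms nb C).filter (keep (Nat.xor (2 ^ n - 1) (Nat.lor (cov nb T) (nb x)))
            L) = ms nb (C.filter (fun y : Fin n =>
              keep (Nat.xor (2 ^ n - 1) (cov nb (x :: T))) L (nb (y : ℕ)))) := by
          unfold ms
          rw [List.filter_map]
          rfl
        have hfil : ((ms nb C).filter (keep (Nat.xor (2 ^ n - 1) (Nat.lor (cov nb T) (nb x)))
            L)).reverse = ms nb ((C.filter (fun y : Fin n =>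
              keep (Nat.xor (2 ^ n - 1) (cov nb (x :: T))) L (nb (y : ℕ)))).reverse) := by
          rw [hfil0]
          unfold ms
          rw [← List.map_reverse]
        rw [hfil, hfil0] at h3
        set C' := (C.filter (fun y : Fin n =>
              keep (Nat.xor (2 ^ n - 1) (cov nb (x :: T))) L (nb (y : ℕ)))).reverse with hC'
        have hC'mem : ∀ z, z ∈ C' → z ∈ C := by
          intro z hz
          rw [hC', List.mem_reverse, List.mem_filter] at hz
          exact hz.1
        have hT'S : ∀ z ∈ x :: T, z ∈ S := by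
          intro z hz
          rcases List.mem_cons.mp hz with rfl | hz
          · exact hxS
          · exact hTS z hz
        have hT'nd : (x :: T).Nodup := List.nodup_cons.mpr ⟨hxT, hTnd⟩
        have hSC' : ∀ z ∈ S, z ∈ (x :: T) ++ C' := by
          intro z hz
          have := hSC z hz
          simp only [List.mem_append, List.mem_cons] at this ⊢
          rcases this with h5 | rfl | h5
          · exact Or.inl (Or.inr h5)
          · exact Or.inl (Or.inl rfl)
          · refine Or.inr ?_
            rw [hC', List.mem_reverse, List.mem_filter]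
            refine ⟨h5, keep_of hR hirr (x :: T) hT'nd z hz ?_ hT'S L hL'⟩
            intro hm
            rcases List.mem_cons.mp hm with rfl | hm
            · exact hxC h5
            · exact hdisj z hm h5
        have hnd' : ((x :: T) ++ C').Nodup := by
          rw [List.nodup_append]
          refine ⟨hT'nd, ?_, ?_⟩
          · rw [hC', List.nodup_reverse]
            exact hCnd.filter _
          · intro a ha b hb
            have hb' := hC'mem b hb
            rintro rfl
            rcases List.mem_cons.mp ha with rfl | ha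
            · exact hxC hb'
            · exact hdisj a ha hb'
        have hcard' : S.card ≤ (x :: T).length + C'.length := by
          have : S ⊆ ((x :: T) ++ C').toFinset := fun z hz => List.mem_toFinset.mpr (hSC' z hz)
          calc S.card ≤ ((x :: T) ++ C').toFinset.card := card_le_card this
            _ ≤ ((x :: T) ++ C').length := List.toFinset_card_le _
            _ = (x :: T).length + C'.length := List.length_append
        have hTS' : (x :: T).length ≤ S.card := by
          have h6 : (x :: T).toFinset ⊆ S := fun z hz => hT'S z (List.mem_toFinset.mp hz)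
          have h7 := card_le_card h6
          rwa [List.toFinset_card_of_nodup hT'nd] at h7
        simp only [List.length_cons] at hcard' hTS'
        have hml : (ms nb (C.filter (fun y : Fin n =>
              keep (Nat.xor (2 ^ n - 1) (cov nb (x :: T))) L (nb (y : ℕ))))).length
            = C'.length := by simp [ms, hC']
        rw [hml] at h3
        rcases st4_true h3 with h3 | h3 | h3
        · rw [Nat.pred_eq_sub_one] at h3
          omega
        · exfalso
          apply h3
          rw [show Nat.lor (cov nb T) (nb x) = cov nb (x :: T) from rfl, foldl_lor]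
          refine eq_full hR _ fun v => ?_
          obtain ⟨u, hu, hc⟩ := hdom v
          refine ⟨u, ?_, hc⟩
          have := hSC' u hu
          rw [hC'] at this
          simp only [List.mem_append, List.mem_reverse] at this ⊢
          tauto
        · by_cases hle : Nat.pred need ≤ C'.length
          · refine ih (Nat.pred need) (C'.length - Nat.pred need) (x :: T) C' hnd' ?_ h3 S
              hirr hdom hT'S hSC' ?_
            · omega
            · simp only [List.length_cons, Nat.pred_eq_sub_one]
              omega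
          · rw [Nat.pred_eq_sub_one] at hle
            omega
      · have hSC' : ∀ z ∈ S, z ∈ T ++ C := by
          intro z hz
          have := hSC z hz
          simp only [List.mem_append, List.mem_cons] at this ⊢
          rcases this with h5 | rfl | h5
          · exact Or.inl h5
          · exact absurd hz hxS
          · exact Or.inr h5
        have hcard' : S.card ≤ T.length + C.length := by
          have : S ⊆ (T ++ C).toFinset := fun z hz => List.mem_toFinset.mpr (hSC' z hz)
          calc S.card ≤ (T ++ C).toFinset.card := card_le_card this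
            _ ≤ (T ++ C).length := List.toFinset_card_le _
            _ = T.length + C.length := List.length_append
        rcases h1 with h1 | h1
        · omega
        · by_cases hs : slack = 0
          · omega
          · refine ih need (Nat.pred slack) T C ?_ ?_ h1 S hirr hdom hTS hSC' hcard
            · rw [List.nodup_append]
              exact ⟨hTnd, hCnd, fun a ha b hb hab => hdisj a ha (hab ▸ hb)⟩
            · rw [Nat.pred_eq_sub_one]; omega

/-- Assembling the certificates. -/
theorem chain_of (hR : Rep G nb) (a b c d e : ℕ)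
    (A B C D E F : List (Fin n))
    (hA : A.Nodup) (hAl : A.length = a)
    (hAi : ((ms nb A).all fun z =>
      !Nat.beq (Nat.land z (Nat.xor (cov nb A) (cov2 nb A))) 0) = true)
    (hAm : ((List.finRange n).all fun v => A.contains v || !((ms nb (v :: A)).all fun z =>
      !Nat.beq (Nat.land z (Nat.xor (cov nb (v :: A)) (cov2 nb (v :: A)))) 0)) = true)
    (hγ : dsr (tab nb n (List.finRange n)) a 0 = true)
    (hB : Nat.beq (cov nb B) (2 ^ n - 1) = true) (hBl : B.length = b)
    (hi : isr (tab nb n (List.finRange n)) b 0 = true)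
    (hC : (C.all fun u => C.all fun v => Nat.beq (u : ℕ) v || !tb (nb (u : ℕ)) v) = true)
    (hCd : Nat.beq (cov nb C) (2 ^ n - 1) = true) (hCl : C.length = c)
    (hD : (D.all fun u => D.all fun v => Nat.beq (u : ℕ) v || !tb (nb (u : ℕ)) v) = true)
    (hDn : D.Nodup) (hDl : c < D.length)
    (hβ : bsr (n + 1) d (ps nb (List.finRange n)) = true)
    (hE : E.Nodup) (hEl : E.length = d)
    (hEi : ((ms nb E).all fun z =>
      !Nat.beq (Nat.land z (Nat.xor (cov nb E) (cov2 nb E))) 0) = true)
    (hEd : Nat.beq (cov nb E) (2 ^ n - 1) = true)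
    (hΓ : vsr (2 ^ n - 1) (n + 1) e (n - e) 0 0 [] (ms nb (List.finRange n)) = true)
    (hen : e ≤ n)
    (hF : F.Nodup) (hFl : F.length = e)
    (hFi : ((ms nb F).all fun z =>
      !Nat.beq (Nat.land z (Nat.xor (cov nb F) (cov2 nb F))) 0) = true) :
    ir G < dom G ∧ dom G < idom G ∧ idom G < indep G ∧ indep G < udom G ∧ udom G < uir G := by
  classical
  have indepL : ∀ C : List (Fin n),
      (C.all fun u => C.all fun v => Nat.beq (u : ℕ) v || !tb (nb (u : ℕ)) v) = true →
      Independent G C.toFinset := by
    intro C hC u hu v hv hadj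
    rw [List.mem_toFinset] at hu hv
    rw [List.all_eq_true] at hC
    have h1 := hC u hu
    rw [List.all_eq_true] at h1
    have h2 := h1 v hv
    rw [Bool.or_eq_true] at h2
    rcases h2 with h2 | h2
    · have : u = v := Fin.ext (Nat.eq_of_beq_eq_true h2)
      subst this
      exact G.irrefl hadj
    · rw [tb_eq, (hR.cl u v).mpr (Or.inr hadj)] at h2
      exact absurd h2 (by simp)
  have bdd : ∀ P : Finset (Fin n) → Prop, BddAbove {k | ∃ S : Finset (Fin n), P S ∧ S.card = k} :=
    fun P => ⟨n, by
      rintro k ⟨S, -, rfl⟩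
      exact (card_le_univ S).trans (by simp)⟩
  -- `ir ≤ a`
  have h1 : ir G ≤ a := by
    apply Nat.sInf_le
    refine ⟨A.toFinset, ⟨(irr_iff hR A hA).mpr hAi, fun T hT hAT v hv => ?_⟩, by
      rw [List.toFinset_card_of_nodup hA, hAl]⟩
    by_contra hvA
    rw [List.mem_toFinset] at hvA
    have h3 := List.all_eq_true.mp hAm v (List.mem_finRange v)
    rw [Bool.or_eq_true] at h3
    rcases h3 with h3 | h3
    · exact hvA (by simpa using h3)
    · have h4 := (irr_iff hR (v :: A) (List.nodup_cons.mpr ⟨hvA, hA⟩)).mp (by
        refine Irredundant.mono hT ?_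
        intro z hz
        rw [List.mem_toFinset] at hz
        rcases List.mem_cons.mp hz with rfl | hz
        · exact hv
        · exact hAT (List.mem_toFinset.mpr hz))
      rw [h4] at h3
      exact absurd h3 (by simp)
  -- `a < dom`
  have h2 : a < dom G := by
    have hne : {k | ∃ S : Finset (Fin n), Dominating G S ∧ S.card = k}.Nonempty :=
      ⟨_, B.toFinset, dominating_of_full hR B (Nat.eq_of_beq_eq_true hB), rfl⟩
    obtain ⟨S, hS, hSc⟩ := Nat.sInf_mem hne
    have := dsr_sound hR (List.finRange n) a [] List.nodup_nil hγ S hS (by simp)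
    simp only [List.length_nil, add_zero, not_le] at this
    unfold dom
    rw [← hSc]
    exact this
  -- `dom ≤ b`
  have h3 : dom G ≤ b := by
    refine le_trans (Nat.sInf_le ⟨B.toFinset, dominating_of_full hR B
      (Nat.eq_of_beq_eq_true hB), rfl⟩) ?_
    rw [← hBl]
    exact List.toFinset_card_le _
  have hCmax : Maximal (Independent G) C.toFinset := by
    refine ⟨indepL C hC, fun T hT hCT v hv => ?_⟩
    obtain ⟨u, hu, hc⟩ := dominating_of_full hR C (Nat.eq_of_beq_eq_true hCd) v
    rcases hc with rfl | hc
    · exact hu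
    · exact absurd hc (hT u (hCT hu) v hv)
  -- `b < idom`
  have h4 : b < idom G := by
    have hne : {k | ∃ S : Finset (Fin n), Maximal (Independent G) S ∧ S.card = k}.Nonempty :=
      ⟨_, C.toFinset, hCmax, rfl⟩
    obtain ⟨S, hS, hSc⟩ := Nat.sInf_mem hne
    have := isr_sound hR (List.finRange n) b [] List.nodup_nil hi S (maximal_indep_dominating hS)
      hS.1 (by simp)
    simp only [List.length_nil, add_zero, not_le] at this
    unfold idom
    rw [← hSc]
    exact this
  have h5 : idom G ≤ c := by
    refine le_trans (Nat.sInf_le ⟨C.toFinset, hCmax, rfl⟩) ?_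
    rw [← hCl]
    exact List.toFinset_card_le _
  have h6 : c < indep G := by
    refine lt_of_lt_of_le hDl ?_
    refine le_csSup (bdd _) ⟨D.toFinset, indepL D hD, ?_⟩
    exact List.toFinset_card_of_nodup hDn
  have h7 : indep G < d := by
    have hne : {k | ∃ S : Finset (Fin n), Independent G S ∧ S.card = k}.Nonempty :=
      ⟨_, C.toFinset, indepL C hC, rfl⟩
    obtain ⟨S, hS, hSc⟩ := Nat.sSup_mem hne (bdd _)
    have := bsr_sound hR (n + 1) d (List.finRange n) (List.nodup_finRange n) hβ S hS
      (fun z _ => List.mem_finRange z)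
    unfold indep
    rw [← hSc]
    omega
  have hEmin : Minimal (Dominating G) E.toFinset :=
    minimal_of_irredundant (dominating_of_full hR E (Nat.eq_of_beq_eq_true hEd))
      ((irr_iff hR E hE).mpr hEi)
  have h8 : d ≤ udom G := by
    refine le_csSup (bdd _) ⟨E.toFinset, hEmin, ?_⟩
    rw [List.toFinset_card_of_nodup hE, hEl]
  have h9 : udom G < e := by
    have hne : {k | ∃ S : Finset (Fin n), Minimal (Dominating G) S ∧ S.card = k}.Nonempty :=
      ⟨_, E.toFinset, hEmin, rfl⟩
    obtain ⟨S, hS, hSc⟩ := Nat.sSup_mem hne (bdd _)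
    have := vsr_sound hR (n + 1) e (n - e) [] (List.finRange n)
      (by simpa using List.nodup_finRange n) (by rw [List.length_finRange]; omega) hΓ S
      (minimal_dom_irredundant hS) hS.1 (by simp) (by simp)
    simp only [List.length_nil, add_zero, not_le] at this
    unfold udom
    rw [← hSc]
    exact this
  have h10 : e ≤ uir G := by
    refine le_csSup (bdd _) ⟨F.toFinset, (irr_iff hR F hF).mpr hFi, ?_⟩
    rw [List.toFinset_card_of_nodup hF, hFl]
  exact ⟨by omega, by omega, by omega, by omega, by omega⟩

end Sound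

end Run7.h773.Chain
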