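import Pool.Agent.Run7.h773.ChainFast

/-!
An explicit cubic graph whose six domination parameters are distinct: the graph.
-/

set_option autoImplicit false

namespace Run7.h773.Chain

/-- The table of closed neighbourhoods, 28 bits for each vertex. -/
def tbl : ℕ := 57828194068583927930231204372314315523799133921414581519284693997554631960382831259266322979301871307252391348831677066206624803399713420952505549166018337546535088652749472796955521236417405894040853213166023140807738749607867972599845

/-- The closed neighbourhood of vertex `i`, as a bit mask. -/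
def nb (i : ℕ) : ℕ := Nat.land (Nat.shiftRight tbl (Nat.mul 28 i)) 268435455

lemma nb_self : ∀ u : Fin 28, tb (nb (u : ℕ)) (u : ℕ) = true := by decide +kernel

lemma nb_symm : ∀ u v : Fin 28, tb (nb (u : ℕ)) (v : ℕ) = tb (nb (v : ℕ)) (u : ℕ) := by
  decide +kernel

lemma nb_lt : ∀ u : Fin 28, nb (u : ℕ) < 2 ^ 28 := by decide +kernel

/-- The graph. -/
def G : SimpleGraph (Fin 28) where
  Adj u v := u ≠ v ∧ tb (nb (u : ℕ)) (v : ℕ) = true
  symm := ⟨fun u v h => ⟨h.1.symm, by rw [nb_symm]; exact h.2⟩⟩
  loopless := ⟨fun u h => h.1 rfl⟩

instance : DecidableRel G.Adj := fun u v =>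
  inferInstanceAs (Decidable (u ≠ v ∧ tb (nb (u : ℕ)) (v : ℕ) = true))

lemma rep : Rep G nb where
  cl u v := by
    rw [← tb_eq]
    unfold Cl G
    constructor
    · intro h
      by_cases huv : u = v
      · exact Or.inl huv
      · exact Or.inr ⟨huv, h⟩
    · rintro (rfl | h)
      · exact nb_self u
      · exact h.2
  lt := nb_lt

lemma cubic : ∀ v : Fin 28, G.degree v = 3 := by decide +kernel

lemma cert_ir : ((ms nb ([0, 1, 5, 13, 18, 19, 22] : List (Fin 28))).all fun z =>
      !Nat.beq (Nat.land z (Nat.xor (cov nb ([0, 1, 5, 13, 18, 19, 22] : List (Fin 28)))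
        (cov2 nb ([0, 1, 5, 13, 18, 19, 22] : List (Fin 28))))) 0) = true := by decide +kernel

lemma cert_gamma : dsr (tab nb 28 (List.finRange 28)) 7 0 = true := by decide +kernel

lemma cert_i : isr (tab nb 28 (List.finRange 28)) 8 0 = true := by decide +kernel

lemma cert_beta : bsr (28 + 1) 11 (ps nb (List.finRange 28)) = true := by decide +kernel

lemma masks : ms nb (List.finRange 28) =
    [16421, 106498, 32805, 6408, 17936, 165, 196928, 5280, 2376, 147984, 5264, 10504, 5256, 43010, 16913, 40966, 196674, 197184, 26476544, 206045184, 137625600, 15728640, 40370176, 44302336, 218365952, 113246208, 117964800, 152567808] := by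
  decide +kernel

end Run7.h773.Chain
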