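import Pool.Agent.Run7.h773.ChainDefs

/-!
Soundness of the search procedures.
-/

set_option autoImplicit false

namespace Run7.h773.Chain

open Finset

/-- Evaluate `v` before applying `k`. -/
noncomputable def seqN (v : ℕ) (k : ℕ → Bool) : Bool := Nat.rec (k 0) (fun j _ => k (Nat.succ j)) v

lemma seqN_eq (v : ℕ) (k : ℕ → Bool) : seqN v k = k v := by cases v <;> rfl

/-- Strict filter (the result is reversed). -/
noncomputable def filterK {α : Type} (p : α → Bool) (l : List α) : List α → (List α → Bool) → Bool :=
  List.rec (fun acc k => k acc) (fun x _ ih acc k => cond (p x) (ih (x :: acc) k) (ih acc k)) l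

lemma filterK_eq {α : Type} (p : α → Bool) (l acc : List α) (k : List α → Bool) :
    filterK p l acc k = k ((l.filter p).reverse ++ acc) := by
  induction l generalizing acc with
  | nil => rfl
  | cons x l ih =>
    show cond (p x) (filterK p l (x :: acc) k) (filterK p l acc k) = _
    rw [ih, ih]
    cases hx : p x <;> simp [hx]

/-- The mask `m` can be added to the irredundant set with masks `Tm`. -/
def okc (c c2 : ℕ) (Tm : List ℕ) (m : ℕ) : Bool :=
  (m :: Tm).all fun z =>
    !Nat.beq (Nat.land z (Nat.xor (Nat.lor c m) (Nat.lor c2 (Nat.land c m)))) 0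

/-- Search for irredundant dominating sets with many elements. -/
noncomputable def usr (full fuel : ℕ) : ℕ → ℕ → ℕ → List ℕ → List ℕ → Bool :=
  Nat.rec (fun _ _ _ _ _ => false)
    (fun _ ih need c c2 Tm Cm =>
      List.rec (motive := fun _ => Bool)
        (!Nat.beq need 0 || !Nat.beq c full)
        (fun x Cs _ =>
          Nat.ble (Nat.succ (Nat.succ Cs.length)) need ||
          (!Nat.beq (Cs.foldl Nat.lor (Nat.lor c x)) full ||
          (ih need c c2 Tm Cs && seqN (Nat.lor c x) fun c' =>
            seqN (Nat.lor c2 (Nat.land c x)) fun c2' => seqN (Nat.pred need) fun need' =>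
              filterK (okc c' c2' (x :: Tm)) Cs [] fun Cs' => ih need' c' c2' (x :: Tm) Cs')))
        Cm) fuel

lemma usr_nil (full f need c c2 : ℕ) (Tm : List ℕ) :
    usr full (f + 1) need c c2 Tm [] = (!Nat.beq need 0 || !Nat.beq c full) := rfl

lemma usr_cons (full f need c c2 : ℕ) (Tm : List ℕ) (x : ℕ) (Cs : List ℕ) :
    usr full (f + 1) need c c2 Tm (x :: Cs) =
      (Nat.ble (Nat.succ (Nat.succ Cs.length)) need ||
          (!Nat.beq (Cs.foldl Nat.lor (Nat.lor c x)) full ||
          (usr full f need c c2 Tm Cs && seqN (Nat.lor c x) fun c' =>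
            seqN (Nat.lor c2 (Nat.land c x)) fun c2' => seqN (Nat.pred need) fun need' =>
              filterK (okc c' c2' (x :: Tm)) Cs [] fun Cs' =>
                usr full f need' c' c2' (x :: Tm) Cs'))) := rfl

/-- Search for small dominating sets. -/
noncomputable def dsr (L : List (ℕ × List (ℕ × ℕ))) : ℕ → ℕ → Bool :=
  List.rec (fun _ _ => false)
    (fun p _ ih k c => cond (tb c p.1) (ih k c)
      (Nat.rec true (fun k' _ => p.2.all fun q => seqN (Nat.lor c q.2) fun c' => ih k' c') k)) L

/-- Search for small independent dominating sets. -/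
noncomputable def isr (L : List (ℕ × List (ℕ × ℕ))) : ℕ → ℕ → Bool :=
  List.rec (fun _ _ => false)
    (fun p _ ih k c => cond (tb c p.1) (ih k c)
      (Nat.rec true (fun k' _ => p.2.all fun q => tb c q.1 ||
        seqN (Nat.lor c q.2) fun c' => ih k' c') k)) L

/-- Search for large independent sets. -/
noncomputable def bsr (fuel : ℕ) : ℕ → List (ℕ × ℕ) → Bool :=
  Nat.rec (fun _ _ => false)
    (fun _ ih need Cm =>
      List.rec (motive := fun _ => Bool)
        (!Nat.beq need 0)
        (fun x Cs _ =>
          Nat.ble (Nat.succ (Nat.succ Cs.length)) need ||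
          (ih need Cs && seqN (Nat.pred need) fun need' =>
              filterK (fun y => !tb x.2 y.1) Cs [] fun Cs' => ih need' Cs'))
        Cm) fuel

/-- The hypotheses on the masks. -/
structure Rep {n : ℕ} (G : SimpleGraph (Fin n)) (nb : ℕ → ℕ) : Prop where
  cl : ∀ u v : Fin n, (nb u).testBit v = true ↔ Cl G u v
  lt : ∀ u : Fin n, nb u < 2 ^ n

section Sound

variable {n : ℕ} {G : SimpleGraph (Fin n)} {nb : ℕ → ℕ}

/-- The masks of a list of vertices. -/
def ms (nb : ℕ → ℕ) (T : List (Fin n)) : List ℕ := T.map (fun u : Fin n => nb (u : ℕ))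

/-- Vertices covered by `T`. -/
def cov (nb : ℕ → ℕ) : List (Fin n) → ℕ
  | [] => 0
  | u :: T => Nat.lor (cov nb T) (nb u)

/-- Vertices covered at least twice by `T`. -/
def cov2 (nb : ℕ → ℕ) : List (Fin n) → ℕ
  | [] => 0
  | u :: T => Nat.lor (cov2 nb T) (Nat.land (cov nb T) (nb u))

lemma tb_lor (a b i : ℕ) : (Nat.lor a b).testBit i = (a.testBit i || b.testBit i) :=
  Nat.testBit_or a b i

lemma tb_land (a b i : ℕ) : (Nat.land a b).testBit i = (a.testBit i && b.testBit i) :=
  Nat.testBit_and a b i

lemma tb_xor (a b i : ℕ) : (Nat.xor a b).testBit i = (a.testBit i ^^ b.testBit i) :=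
  Nat.testBit_xor a b i

lemma mem_cov (T : List (Fin n)) (i : ℕ) :
    (cov nb T).testBit i = true ↔ ∃ u ∈ T, (nb u).testBit i = true := by
  induction T with
  | nil => simp [cov]
  | cons u T ih =>
    rw [cov, tb_lor, Bool.or_eq_true, ih]
    simp only [List.mem_cons, exists_eq_or_imp]
    exact or_comm

lemma mem_cov2 (T : List (Fin n)) (hT : T.Nodup) (i : ℕ) :
    (cov2 nb T).testBit i = true ↔ ∃ u ∈ T, ∃ u' ∈ T, u ≠ u' ∧ (nb u).testBit i = true ∧
      (nb u').testBit i = true := by
  induction T with
  | nil => simp [cov2]
  | cons u T ih =>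
    rw [List.nodup_cons] at hT
    rw [cov2, tb_lor, Bool.or_eq_true, tb_land, Bool.and_eq_true, ih hT.2, mem_cov]
    constructor
    · rintro (⟨a, ha, b, hb, hab, h1, h2⟩ | ⟨⟨a, ha, h1⟩, h2⟩)
      · exact ⟨a, List.mem_cons_of_mem _ ha, b, List.mem_cons_of_mem _ hb, hab, h1, h2⟩
      · exact ⟨a, List.mem_cons_of_mem _ ha, u, List.mem_cons_self, fun h => hT.1 (h ▸ ha), h1, h2⟩
    · rintro ⟨a, ha, b, hb, hab, h1, h2⟩
      rcases List.mem_cons.mp ha with hau | ha
      · rcases List.mem_cons.mp hb with hbu | hb
        · exact absurd (hau.trans hbu.symm) hab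
        · exact Or.inr ⟨⟨b, hb, h2⟩, hau ▸ h1⟩
      · rcases List.mem_cons.mp hb with hbu | hb
        · exact Or.inr ⟨⟨a, ha, h1⟩, hbu ▸ h2⟩
        · exact Or.inl ⟨a, ha, b, hb, hab, h1, h2⟩

lemma cov_lt (hR : Rep G nb) (T : List (Fin n)) : cov nb T < 2 ^ n := by
  induction T with
  | nil => simp [cov]
  | cons u T ih => exact Nat.or_lt_two_pow ih (hR.lt u)

lemma eq_full (hR : Rep G nb) (T : List (Fin n)) (h : ∀ v : Fin n, ∃ u ∈ T, Cl G u v) :
    cov nb T = 2 ^ n - 1 := by
  apply Nat.eq_of_testBit_eq
  intro i
  rw [Nat.testBit_two_pow_sub_one]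
  by_cases hi : i < n
  · obtain ⟨u, hu, hc⟩ := h ⟨i, hi⟩
    rw [(mem_cov T i).mpr ⟨u, hu, (hR.cl u ⟨i, hi⟩).mpr hc⟩]
    simp [hi]
  · rw [Nat.testBit_lt_two_pow ((cov_lt hR T).trans_le (Nat.pow_le_pow_right (by norm_num)
      (not_lt.mp hi)))]
    simp [hi]

lemma dominating_of_full (hR : Rep G nb) (T : List (Fin n)) (h : cov nb T = 2 ^ n - 1) :
    Dominating G T.toFinset := by
  intro v
  have h1 : (cov nb T).testBit v = true := by
    rw [h, Nat.testBit_two_pow_sub_one]; simp
  obtain ⟨u, hu, hv⟩ := (mem_cov T v).mp h1
  exact ⟨u, List.mem_toFinset.mpr hu, (hR.cl u v).mp hv⟩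

lemma land_ne_zero {z e : ℕ} {i : ℕ} (h1 : z.testBit i = true) (h2 : e.testBit i = true) :
    (!Nat.beq (Nat.land z e) 0) = true := by
  rw [Bool.not_eq_true']
  cases hb : Nat.beq (Nat.land z e) 0
  · rfl
  · exfalso
    have h0 := Nat.eq_of_beq_eq_true hb
    have h3 : (Nat.land z e).testBit i = true := by rw [tb_land, h1, h2]; rfl
    rw [h0] at h3
    simp at h3

lemma exists_bit_of_land {z e : ℕ} (h : (!Nat.beq (Nat.land z e) 0) = true) :
    ∃ i, z.testBit i = true ∧ e.testBit i = true := by
  have h0 : Nat.land z e ≠ 0 := by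
    intro h0
    rw [h0] at h
    simp at h
  obtain ⟨i, hi⟩ := Nat.exists_testBit_of_ne_zero h0
  rw [tb_land, Bool.and_eq_true] at hi
  exact ⟨i, hi.1, hi.2⟩

/-- The irredundance test. -/
lemma irr_iff (hR : Rep G nb) (T : List (Fin n)) (hT : T.Nodup) :
    Irredundant G T.toFinset ↔ ((ms nb T).all fun z =>
      !Nat.beq (Nat.land z (Nat.xor (cov nb T) (cov2 nb T))) 0) = true := by
  rw [List.all_eq_true]
  constructor
  · intro h m hm
    obtain ⟨u, hu, rfl⟩ := List.mem_map.mp hm
    obtain ⟨x, hx, h2⟩ := h u (List.mem_toFinset.mpr hu)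
    have hbit := (hR.cl u x).mpr hx
    refine land_ne_zero hbit ?_
    rw [tb_xor, (mem_cov T x).mpr ⟨u, hu, hbit⟩]
    have : ¬ (cov2 nb T).testBit x = true := by
      rw [mem_cov2 T hT]
      rintro ⟨a, ha, b, hb, hab, h3, h4⟩
      have ha' : a = u := by
        by_contra hne
        exact h2 a (List.mem_toFinset.mpr ha) hne ((hR.cl a x).mp h3)
      have hb' : b = u := by
        by_contra hne
        exact h2 b (List.mem_toFinset.mpr hb) hne ((hR.cl b x).mp h4)
      exact hab (ha'.trans hb'.symm)
    rw [Bool.not_eq_true] at this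
    rw [this]
    rfl
  · intro h u hu
    rw [List.mem_toFinset] at hu
    obtain ⟨i, h1, h2⟩ := exists_bit_of_land (h (nb u) (List.mem_map.mpr ⟨u, hu, rfl⟩))
    have hi : i < n := by
      by_contra hi
      rw [Nat.testBit_lt_two_pow ((hR.lt u).trans_le (Nat.pow_le_pow_right (by norm_num)
        (not_lt.mp hi)))] at h1
      exact absurd h1 (by simp)
    refine ⟨⟨i, hi⟩, (hR.cl u ⟨i, hi⟩).mp h1, fun u' hu' hne hc => ?_⟩
    rw [List.mem_toFinset] at hu'
    have h3 : (cov2 nb T).testBit i = true :=
      (mem_cov2 T hT i).mpr ⟨u', hu', u, hu, hne, (hR.cl u' ⟨i, hi⟩).mpr hc, h1⟩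
    rw [tb_xor, (mem_cov T i).mpr ⟨u, hu, h1⟩, h3] at h2
    exact absurd h2 (by simp)

lemma okc_of (hR : Rep G nb) {S : Finset (Fin n)} (hS : Irredundant G S) (T : List (Fin n))
    (y : Fin n) (hT : (y :: T).Nodup) (hsub : ∀ z ∈ y :: T, z ∈ S) :
    okc (cov nb T) (cov2 nb T) (ms nb T) (nb y) = true := by
  have h := (irr_iff hR (y :: T) hT).mp (hS.mono (by
    intro z hz; exact hsub z (List.mem_toFinset.mp hz)))
  exact h

lemma foldl_lor (C : List (Fin n)) (T : List (Fin n)) :
    (ms nb C).foldl Nat.lor (cov nb T) = cov nb (C.reverse ++ T) := by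
  induction C generalizing T with
  | nil => rfl
  | cons x C ih =>
    have : (ms nb (x :: C)).foldl Nat.lor (cov nb T)
      = (ms nb C).foldl Nat.lor (cov nb (x :: T)) := rfl
    rw [this, ih]
    simp

theorem usr_sound (hR : Rep G nb) (fuel : ℕ) : ∀ (need : ℕ) (T C : List (Fin n)),
    (T ++ C).Nodup →
    usr (2 ^ n - 1) fuel need (cov nb T) (cov2 nb T) (ms nb T) (ms nb C) = true →
    ∀ S : Finset (Fin n), Irredundant G S → Dominating G S → (∀ z ∈ T, z ∈ S) →
      (∀ z ∈ S, z ∈ T ++ C) → ¬ need + T.length ≤ S.card := by
  induction fuel with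
  | zero => intro need T C _ h; exact absurd h (by simp [usr])
  | succ f ih =>
    intro need T C hnd h S hirr hdom hTS hSC hcard
    have hcardle : S.card ≤ T.length + C.length := by
      have : S ⊆ (T ++ C).toFinset := fun z hz => List.mem_toFinset.mpr (hSC z hz)
      calc S.card ≤ (T ++ C).toFinset.card := card_le_card this
        _ ≤ (T ++ C).length := List.toFinset_card_le _
        _ = T.length + C.length := List.length_append
    cases C with
    | nil =>
      rw [show ms nb ([] : List (Fin n)) = [] from rfl, usr_nil] at h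
      simp only [List.length_nil, add_zero] at hcardle
      have h0 : need = 0 := by omega
      subst h0
      have hf : cov nb T = 2 ^ n - 1 := eq_full hR T fun v => by
        obtain ⟨u, hu, hc⟩ := hdom v
        exact ⟨u, by simpa using hSC u hu, hc⟩
      rw [hf] at h
      simp at h
    | cons x C =>
      rw [show ms nb (x :: C) = nb x :: ms nb C from rfl, usr_cons] at h
      simp only [Bool.or_eq_true, Bool.and_eq_true, seqN_eq, filterK_eq, List.append_nil] at h
      rcases h with h | h | ⟨h1, h2⟩
      · rw [Nat.ble_eq] at h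
        simp only [ms, List.length_map, List.length_cons] at h hcardle
        omega
      · have hf : (ms nb C).foldl Nat.lor (Nat.lor (cov nb T) (nb x)) = 2 ^ n - 1 := by
          rw [show Nat.lor (cov nb T) (nb x) = cov nb (x :: T) from rfl, foldl_lor]
          refine eq_full hR _ fun v => ?_
          obtain ⟨u, hu, hc⟩ := hdom v
          refine ⟨u, ?_, hc⟩
          have := hSC u hu
          simp only [List.mem_append, List.mem_cons, List.mem_reverse] at this ⊢
          tauto
        rw [hf] at h
        simp at h
      · have hxT : x ∉ T := by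
          intro hx
          exact (List.nodup_append.mp hnd).2.2 x hx x List.mem_cons_self rfl
        have hxC : x ∉ C := (List.nodup_cons.mp (List.nodup_append.mp hnd).2.1).1
        have hTnd := (List.nodup_append.mp hnd).1
        have hCnd := (List.nodup_cons.mp (List.nodup_append.mp hnd).2.1).2
        have hdisj : ∀ z ∈ T, z ∉ C := fun z hz hz' =>
          (List.nodup_append.mp hnd).2.2 z hz z (List.mem_cons_of_mem _ hz') rfl
        by_cases hxS : x ∈ S
        · have hfil : ((ms nb C).filter (okc (Nat.lor (cov nb T) (nb x))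
            (Nat.lor (cov2 nb T) (Nat.land (cov nb T) (nb x))) (nb x :: ms nb T))).reverse
            = ms nb ((C.filter (fun y : Fin n => okc (cov nb (x :: T)) (cov2 nb (x :: T))
              (ms nb (x :: T)) (nb (y : ℕ)))).reverse) := by
            unfold ms
            rw [List.filter_map, ← List.map_reverse]
            rfl
          rw [hfil] at h2
          refine ih (Nat.pred need) (x :: T) _ ?_ h2 S hirr hdom ?_ ?_ ?_
          · rw [List.nodup_append]
            refine ⟨List.nodup_cons.mpr ⟨hxT, hTnd⟩, ?_, ?_⟩
            · rw [List.nodup_reverse]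
              exact hCnd.filter _
            · intro a ha b hb
              rw [List.mem_reverse, List.mem_filter] at hb
              rintro rfl
              rcases List.mem_cons.mp ha with rfl | ha
              · exact hxC hb.1
              · exact hdisj a ha hb.1
          · intro z hz
            rcases List.mem_cons.mp hz with rfl | hz
            · exact hxS
            · exact hTS z hz
          · intro z hz
            have := hSC z hz
            simp only [List.mem_append, List.mem_cons, List.mem_reverse, List.mem_filter] at this ⊢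
            rcases this with h5 | rfl | h5
            · exact Or.inl (Or.inr h5)
            · exact Or.inl (Or.inl rfl)
            · refine Or.inr ⟨h5, okc_of hR hirr (x :: T) z ?_ ?_⟩
              · rw [List.nodup_cons, List.nodup_cons]
                refine ⟨?_, hxT, hTnd⟩
                intro hm
                rcases List.mem_cons.mp hm with rfl | hm
                · exact hxC h5
                · exact hdisj z hm h5
              · intro t ht
                rcases List.mem_cons.mp ht with rfl | ht
                · exact hz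
                · rcases List.mem_cons.mp ht with rfl | ht
                  · exact hxS
                  · exact hTS t ht
          · simp only [List.length_cons, Nat.pred_eq_sub_one]
            have : (x :: T).length ≤ S.card := by
              have h6 : (x :: T).toFinset ⊆ S := by
                intro z hz
                rw [List.mem_toFinset] at hz
                rcases List.mem_cons.mp hz with rfl | hz
                · exact hxS
                · exact hTS z hz
              have h7 := card_le_card h6
              rwa [List.toFinset_card_of_nodup (List.nodup_cons.mpr ⟨hxT, hTnd⟩)] at h7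
            simp only [List.length_cons] at this
            omega
        · refine ih need T C ?_ h1 S hirr hdom hTS ?_ hcard
          · rw [List.nodup_append]
            exact ⟨hTnd, hCnd, fun a ha b hb hab => hdisj a ha (hab ▸ hb)⟩
          · intro z hz
            have := hSC z hz
            simp only [List.mem_append, List.mem_cons] at this ⊢
            rcases this with h5 | rfl | h5
            · exact Or.inl h5
            · exact absurd hz hxS
            · exact Or.inr h5

/-- The table of closed neighbourhoods. -/
def tab (nb : ℕ → ℕ) (n : ℕ) (L : List (Fin n)) : List (ℕ × List (ℕ × ℕ)) :=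
  L.map fun x => ((x : ℕ), ((List.finRange n).filter (fun w : Fin n => tb (nb (x : ℕ)) (w : ℕ))).map
    fun w : Fin n => ((w : ℕ), nb (w : ℕ)))

lemma dsr_cons (p : ℕ × List (ℕ × ℕ)) (L : List (ℕ × List (ℕ × ℕ))) (k c : ℕ) :
    dsr (p :: L) k c = cond (tb c p.1) (dsr L k c)
      (Nat.rec true (fun k' _ => p.2.all fun q => seqN (Nat.lor c q.2) fun c' => dsr L k' c') k) :=
  rfl

lemma isr_cons (p : ℕ × List (ℕ × ℕ)) (L : List (ℕ × List (ℕ × ℕ))) (k c : ℕ) :
    isr (p :: L) k c = cond (tb c p.1) (isr L k c)
      (Nat.rec true (fun k' _ => p.2.all fun q => tb c q.1 ||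
        seqN (Nat.lor c q.2) fun c' => isr L k' c') k) :=
  rfl

theorem dsr_sound (hR : Rep G nb) (L : List (Fin n)) : ∀ (k : ℕ) (T : List (Fin n)), T.Nodup →
    dsr (tab nb n L) k (cov nb T) = true →
    ∀ S : Finset (Fin n), Dominating G S → (∀ z ∈ T, z ∈ S) → ¬ S.card ≤ k + T.length := by
  induction L with
  | nil => intro k T _ h; exact absurd h (by simp [tab, dsr])
  | cons x L ih =>
    intro k T hT h S hdom hTS hcard
    rw [show tab nb n (x :: L) = ((x : ℕ), ((List.finRange n).filter (fun w : Fin n =>
      tb (nb (x : ℕ)) (w : ℕ))).map fun w : Fin n => ((w : ℕ), nb (w : ℕ))) :: tab nb n L from rfl,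
      dsr_cons] at h
    cases hx : tb (cov nb T) (x : ℕ) with
    | true =>
      rw [hx] at h
      exact ih k T hT h S hdom hTS hcard
    | false =>
      rw [hx] at h
      simp only [cond_false] at h
      obtain ⟨u, hu, hux⟩ := hdom x
      have huT : u ∉ T := by
        intro huT
        have := (mem_cov (nb := nb) T x).mpr ⟨u, huT, (hR.cl u x).mpr hux⟩
        rw [tb_eq, this] at hx
        exact absurd hx (by simp)
      have hsub : (u :: T).toFinset ⊆ S := by
        intro z hz
        rw [List.mem_toFinset] at hz
        rcases List.mem_cons.mp hz with rfl | hz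
        · exact hu
        · exact hTS z hz
      have hle := card_le_card hsub
      rw [List.toFinset_card_of_nodup (List.nodup_cons.mpr ⟨huT, hT⟩), List.length_cons] at hle
      cases k with
      | zero => omega
      | succ k =>
        have h' : ((((List.finRange n).filter (fun w : Fin n => tb (nb (x : ℕ)) (w : ℕ))).map
          fun w : Fin n => ((w : ℕ), nb (w : ℕ))).all fun q => seqN (Nat.lor (cov nb T) q.2)
            fun c' => dsr (tab nb n L) k c') = true := h
        rw [List.all_eq_true] at h'
        have hxu : Cl G x u := hux.elim (fun h => Or.inl h.symm) (fun h => Or.inr h.symm)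
        have h2 := h' ((u : ℕ), nb (u : ℕ)) (List.mem_map.mpr ⟨u, List.mem_filter.mpr
          ⟨List.mem_finRange u, by rw [tb_eq]; exact (hR.cl x u).mpr hxu⟩, rfl⟩)
        rw [seqN_eq] at h2
        refine ih k (u :: T) (List.nodup_cons.mpr ⟨huT, hT⟩) h2 S hdom ?_ ?_
        · intro z hz
          exact hsub (List.mem_toFinset.mpr hz)
        · rw [List.length_cons]; omega

theorem isr_sound (hR : Rep G nb) (L : List (Fin n)) : ∀ (k : ℕ) (T : List (Fin n)), T.Nodup →
    isr (tab nb n L) k (cov nb T) = true →
    ∀ S : Finset (Fin n), Dominating G S → Independent G S → (∀ z ∈ T, z ∈ S) →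
      ¬ S.card ≤ k + T.length := by
  induction L with
  | nil => intro k T _ h; exact absurd h (by simp [tab, isr])
  | cons x L ih =>
    intro k T hT h S hdom hind hTS hcard
    rw [show tab nb n (x :: L) = ((x : ℕ), ((List.finRange n).filter (fun w : Fin n =>
      tb (nb (x : ℕ)) (w : ℕ))).map fun w : Fin n => ((w : ℕ), nb (w : ℕ))) :: tab nb n L from rfl,
      isr_cons] at h
    cases hx : tb (cov nb T) (x : ℕ) with
    | true =>
      rw [hx] at h
      exact ih k T hT h S hdom hind hTS hcard
    | false =>
      rw [hx] at h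
      simp only [cond_false] at h
      obtain ⟨u, hu, hux⟩ := hdom x
      have huT : u ∉ T := by
        intro huT
        have := (mem_cov (nb := nb) T x).mpr ⟨u, huT, (hR.cl u x).mpr hux⟩
        rw [tb_eq, this] at hx
        exact absurd hx (by simp)
      have hcu : tb (cov nb T) (u : ℕ) = false := by
        cases hc : tb (cov nb T) (u : ℕ) with
        | false => rfl
        | true =>
          exfalso
          rw [tb_eq, mem_cov] at hc
          obtain ⟨z, hz, hzu⟩ := hc
          rcases (hR.cl z u).mp hzu with rfl | hadj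
          · exact huT hz
          · exact hind z (hTS z hz) u hu hadj
      have hsub : (u :: T).toFinset ⊆ S := by
        intro z hz
        rw [List.mem_toFinset] at hz
        rcases List.mem_cons.mp hz with rfl | hz
        · exact hu
        · exact hTS z hz
      have hle := card_le_card hsub
      rw [List.toFinset_card_of_nodup (List.nodup_cons.mpr ⟨huT, hT⟩), List.length_cons] at hle
      cases k with
      | zero => omega
      | succ k =>
        have h' : ((((List.finRange n).filter (fun w : Fin n => tb (nb (x : ℕ)) (w : ℕ))).map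
          fun w : Fin n => ((w : ℕ), nb (w : ℕ))).all fun q => tb (cov nb T) q.1 ||
            seqN (Nat.lor (cov nb T) q.2) fun c' => isr (tab nb n L) k c') = true := h
        rw [List.all_eq_true] at h'
        have hxu : Cl G x u := hux.elim (fun h => Or.inl h.symm) (fun h => Or.inr h.symm)
        have h2 := h' ((u : ℕ), nb (u : ℕ)) (List.mem_map.mpr ⟨u, List.mem_filter.mpr
          ⟨List.mem_finRange u, by rw [tb_eq]; exact (hR.cl x u).mpr hxu⟩, rfl⟩)
        simp only [hcu, Bool.false_or, seqN_eq] at h2
        refine ih k (u :: T) (List.nodup_cons.mpr ⟨huT, hT⟩) h2 S hdom hind ?_ ?_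
        · intro z hz
          exact hsub (List.mem_toFinset.mpr hz)
        · rw [List.length_cons]; omega

/-- Vertices with their masks. -/
def ps (nb : ℕ → ℕ) (C : List (Fin n)) : List (ℕ × ℕ) :=
  C.map fun u : Fin n => ((u : ℕ), nb (u : ℕ))

lemma bsr_nil (f need : ℕ) : bsr (f + 1) need [] = !Nat.beq need 0 := rfl

lemma bsr_cons (f need : ℕ) (x : ℕ × ℕ) (Cs : List (ℕ × ℕ)) :
    bsr (f + 1) need (x :: Cs) = (Nat.ble (Nat.succ (Nat.succ Cs.length)) need ||
          (bsr f need Cs && seqN (Nat.pred need) fun need' =>
              filterK (fun y => !tb x.2 y.1) Cs [] fun Cs' => bsr f need' Cs')) := rfl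

theorem bsr_sound (hR : Rep G nb) (fuel : ℕ) : ∀ (need : ℕ) (C : List (Fin n)), C.Nodup →
    bsr fuel need (ps nb C) = true →
    ∀ S : Finset (Fin n), Independent G S → (∀ z ∈ S, z ∈ C) → ¬ need ≤ S.card := by
  induction fuel with
  | zero => intro need C _ h; exact absurd h (by simp [bsr])
  | succ f ih =>
    intro need C hC h S hind hSC hcard
    have hle : S.card ≤ C.length := by
      have : S ⊆ C.toFinset := fun z hz => List.mem_toFinset.mpr (hSC z hz)
      exact (card_le_card this).trans (List.toFinset_card_le _)
    cases C with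
    | nil =>
      rw [show ps nb ([] : List (Fin n)) = [] from rfl, bsr_nil] at h
      simp only [List.length_nil] at hle
      have h0 : need = 0 := by omega
      subst h0
      simp at h
    | cons x C =>
      rw [show ps nb (x :: C) = ((x : ℕ), nb (x : ℕ)) :: ps nb C from rfl, bsr_cons] at h
      simp only [Bool.or_eq_true, Bool.and_eq_true, seqN_eq, filterK_eq, List.append_nil] at h
      rw [List.nodup_cons] at hC
      rcases h with h | ⟨h1, h2⟩
      · rw [Nat.ble_eq] at h
        simp only [ps, List.length_map, List.length_cons] at h hle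
        omega
      · by_cases hxS : x ∈ S
        · have hfil : ((ps nb C).filter fun y => !tb (nb (x : ℕ)) y.1).reverse
            = ps nb ((C.filter (fun y : Fin n => !tb (nb (x : ℕ)) (y : ℕ))).reverse) := by
            unfold ps
            rw [List.filter_map, ← List.map_reverse]
            rfl
          rw [hfil] at h2
          have hcard2 : (S.erase x).card + 1 = S.card := card_erase_add_one hxS
          refine ih (Nat.pred need) _ ?_ h2 (S.erase x) ?_ ?_ ?_
          · rw [List.nodup_reverse]
            exact hC.2.filter _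
          · intro a ha b hb
            exact hind a (mem_of_mem_erase ha) b (mem_of_mem_erase hb)
          · intro z hz
            rw [mem_erase] at hz
            rw [List.mem_reverse, List.mem_filter]
            refine ⟨(List.mem_cons.mp (hSC z hz.2)).resolve_left hz.1, ?_⟩
            rw [Bool.not_eq_true', tb_eq, ← Bool.not_eq_true, hR.cl]
            rintro (h | h)
            · exact hz.1 h.symm
            · exact hind x hxS z hz.2 h
          · rw [Nat.pred_eq_sub_one]; omega
        · refine ih need C hC.2 h1 S hind ?_ hcard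
          intro z hz
          refine (List.mem_cons.mp (hSC z hz)).resolve_left ?_
          rintro rfl
          exact hxS hz

end Sound

end Run7.h773.Chain
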