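import Pool.Agent.Run7.h773.Trig
import Pool.Agent.Run7.h773.Loop
/-!
Nondegenerate perturbations of the circle.
-/
open scoped ContDiff Topology
open Polynomial Finset

namespace Run7.h773

/-- A family of smooth functions whose Wronskian has no zero. -/
def Regular (N : ℕ) (h : ℕ → V) : Prop :=
  ∀ t : ℝ, ∀ c : ℕ → ℝ, Van N t (∑ j ∈ range N, c j • h j) → ∀ j < N, c j = 0

/-- the operator `D (D^2 + 1)` -/
noncomputable def third (f : V) : V := D (D (D f)) + D f

/-- coordinates of the perturbed circle -/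
noncomputable def coords (f : ℕ → V) (ε : ℝ) : ℕ → V
  | 0 => Cf 1
  | 1 => Sf 1
  | (j + 2) => ε • f j

theorem third_smul (c : ℝ) (f : V) : third (c • f) = c • third f := by
  unfold third; simp only [map_smul, smul_add]

theorem third_add (f g : V) : third (f + g) = third f + third g := by
  unfold third; simp only [map_add]; abel

theorem third_sum {ι : Type*} (s : Finset ι) (f : ι → V) :
    third (∑ i ∈ s, f i) = ∑ i ∈ s, third (f i) := by
  unfold third; simp only [map_sum, sum_add_distrib]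

theorem third_Cf (l : ℝ) : third (Cf l) = (-(l * (1 - l ^ 2))) • Sf l := by
  unfold third
  rw [D_Cf, map_smul, D_Sf, map_smul, map_smul, D_Cf, smul_smul, smul_smul, ← add_smul]
  congr 1; ring

theorem third_Sf (l : ℝ) : third (Sf l) = (l * (1 - l ^ 2)) • Cf l := by
  unfold third
  rw [D_Sf, map_smul, D_Cf, map_smul, map_smul, D_Sf, smul_smul, smul_smul, ← add_smul]
  congr 1; ring

theorem regular_coords (k : ℕ) (f : ℕ → V) (hf : Regular k (fun j => third (f j)))
    (ε : ℝ) (hε : ε ≠ 0) : Regular (k + 2) (fun i => D (coords f ε i)) := by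
  intro t c hc
  have hsum : (∑ j ∈ range (k + 2), c j • D (coords f ε j)) =
      D (∑ j ∈ range k, c (j + 2) • (ε • f j)) + D (c 1 • Sf 1) + D (c 0 • Cf 1) := by
    rw [sum_range_succ', sum_range_succ']
    simp only [map_sum, map_smul, coords]
  rw [hsum] at hc
  have h3 : D (D (D (∑ j ∈ range k, c (j + 2) • (ε • f j)) + D (c 1 • Sf 1) + D (c 0 • Cf 1)))
        + (D (∑ j ∈ range k, c (j + 2) • (ε • f j)) + D (c 1 • Sf 1) + D (c 0 • Cf 1))
      = ∑ j ∈ range k, (c (j + 2) * ε) • third (f j) := by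
    have e : ∀ g : V, D (D (D g + D (c 1 • Sf 1) + D (c 0 • Cf 1)))
        + (D g + D (c 1 • Sf 1) + D (c 0 • Cf 1)) =
          third g + third (c 1 • Sf 1) + third (c 0 • Cf 1) := by
      intro g
      unfold third
      simp only [map_add]
      abel
    rw [e, third_smul, third_smul, third_Sf, third_Cf, third_sum]
    norm_num
    apply sum_congr rfl
    intro j _
    rw [smul_smul, third_smul]
  have hv : Van k t (∑ j ∈ range k, (c (j + 2) * ε) • third (f j)) := by
    rw [← h3]
    apply Van.add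
    · exact hc.D.D
    · exact hc.mono (by omega)
  have h4 := hf t (fun j => c (j + 2) * ε) hv
  have h5 : ∀ j < k, c (j + 2) = 0 := fun j hj => (mul_eq_zero.1 (h4 j hj)).resolve_right hε
  have h6 : (∑ j ∈ range k, c (j + 2) • (ε • f j)) = 0 := by
    apply sum_eq_zero
    intro j hj
    rw [h5 j (mem_range.1 hj), zero_smul]
  rw [h6, map_zero, zero_add] at hc
  have e0 := hc 0 (by omega)
  have e1 := hc 1 (by omega)
  have hD1 : D (c 1 • Sf 1) + D (c 0 • Cf 1) = c 1 • Cf 1 + (-(c 0)) • Sf 1 := by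
    rw [map_smul, map_smul, D_Sf, D_Cf, one_smul, smul_smul, mul_neg_one]
  have hD2 : D (c 1 • Cf 1 + (-(c 0)) • Sf 1) = (-(c 1)) • Sf 1 + (-(c 0)) • Cf 1 := by
    rw [map_add, map_smul, map_smul, D_Sf, D_Cf, one_smul, smul_smul, mul_neg_one]
  rw [hD1] at e0 e1
  rw [pow_one, hD2] at e1
  have e0' : c 1 * Real.cos (1 * t) + -(c 0) * Real.sin (1 * t) = 0 := e0
  have e1' : -(c 1) * Real.sin (1 * t) + -(c 0) * Real.cos (1 * t) = 0 := e1
  have h7 := cos_sin_zero (l := 1) (t := t) (a := c 1) (b := -(c 0)) (by linarith) (by linarith)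
  intro j hj
  rcases j with _ | _ | j
  · linarith [h7.2]
  · exact h7.1
  · exact h5 j (by omega)

/-- period `2π` -/
def Per (f : V) : Prop := Function.Periodic f.1 (2 * Real.pi)

theorem Per.smul {f : V} (hf : Per f) (c : ℝ) : Per (c • f) := by
  intro t
  change c * f.1 _ = c * f.1 _
  rw [hf t]

theorem Per.add {f g : V} (hf : Per f) (hg : Per g) : Per (f + g) := by
  intro t
  change f.1 _ + g.1 _ = f.1 _ + g.1 _
  rw [hf t, hg t]

theorem per_Cf (l : ℕ) : Per (Cf l) := by
  intro t
  change Real.cos _ = Real.cos _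
  have h : (l : ℝ) * (t + 2 * Real.pi) = l * t + l * (2 * Real.pi) := by ring
  rw [h, Real.cos_add_nat_mul_two_pi]

theorem per_Sf (l : ℕ) : Per (Sf l) := by
  intro t
  change Real.sin _ = Real.sin _
  have h : (l : ℝ) * (t + 2 * Real.pi) = l * t + l * (2 * Real.pi) := by ring
  rw [h, Real.sin_add_nat_mul_two_pi]

theorem per_zero : Per 0 := fun _ => rfl

/-- closed curve with given coordinate functions -/
noncomputable def loopOf (n : ℕ) (g : ℕ → V) (hg : ∀ i, Per (g i)) : SmoothLoop n :=
  ⟨fun t => WithLp.toLp 2 (fun i : Fin n => (g i).1 t), by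
    constructor
    · rw [contDiff_euclidean]
      intro i
      exact smooth_V (g i)
    · intro t
      apply PiLp.ext
      intro i
      exact hg i t⟩

theorem iteratedDeriv_coord {n : ℕ} (γ : ℝ → EuclideanSpace ℝ (Fin n)) (hγ : ContDiff ℝ ∞ γ)
    (k : ℕ) : ∀ (t : ℝ) (i : Fin n),
      iteratedDeriv k γ t i = iteratedDeriv k (fun s => γ s i) t := by
  induction k with
  | zero => intro t i; simp
  | succ k ih =>
    intro t i
    rw [iteratedDeriv_succ, iteratedDeriv_succ]
    have hd : DifferentiableAt ℝ (iteratedDeriv k γ) t :=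
      (hγ.differentiable_iteratedDeriv k (by exact_mod_cast WithTop.coe_lt_top k)) t
    have h1 := ((EuclideanSpace.proj i :
      EuclideanSpace ℝ (Fin n) →L[ℝ] ℝ).hasFDerivAt).comp_hasDerivAt t hd.hasDerivAt
    have h2 : (fun s => iteratedDeriv k γ s i) = iteratedDeriv k (fun s => γ s i) := by
      funext s; exact ih s i
    rw [← h2]
    exact h1.deriv.symm

theorem nondegenerate_loopOf (n : ℕ) (g : ℕ → V) (hg : ∀ i, Per (g i))
    (h : Regular n (fun i => D (g i))) : Nondegenerate (loopOf n g hg) := by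
  intro t
  set M : Matrix (Fin n) (Fin n) ℝ := fun k i => iteratedDeriv ((k : ℕ) + 1) (g i).1 t with hM
  have hinj : Function.Injective M.mulVec := by
    have : Function.Injective (Matrix.mulVecLin M) := by
      rw [← LinearMap.ker_eq_bot, LinearMap.ker_eq_bot']
      intro c hc
      set c' : ℕ → ℝ := fun j => if hj : j < n then c ⟨j, hj⟩ else 0 with hc'
      have hv : Van n t (∑ j ∈ range n, c' j • D (g j)) := by
        intro k hk
        have e := congrFun hc ⟨k, hk⟩
        rw [map_sum, map_sum]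
        have e2 : ∑ i : Fin n, M ⟨k, hk⟩ i * c i = 0 := e
        rw [← Fin.sum_univ_eq_sum_range (fun j => (ev t) ((D ^ k) (c' j • D (g j)))) n, ← e2]
        apply sum_congr rfl
        intro i _
        rw [map_smul, map_smul, ← Module.End.mul_apply, ← pow_succ]
        have e3 : ev t ((D ^ (k + 1)) (g i)) = iteratedDeriv (k + 1) (g i).1 t := by
          rw [← D_pow_coe]; rfl
        rw [e3]
        simp only [hc', i.2, dif_pos, hM, smul_eq_mul]
        ring
      have h0 := h t c' hv
      funext i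
      have := h0 i i.2
      simp only [hc', i.2, dif_pos] at this
      exact this
    exact this
  have hu : IsUnit M := Matrix.mulVec_injective_iff_isUnit.1 hinj
  have hrow : LinearIndependent ℝ M.row := Matrix.linearIndependent_rows_iff_isUnit.2 hu
  have := hrow.map' (WithLp.linearEquiv 2 ℝ (Fin n → ℝ)).symm.toLinearMap
    (LinearEquiv.ker _)
  have hfun : (fun k : Fin n => iteratedDeriv ((k : ℕ) + 1) (loopOf n g hg).1 t) =
      (WithLp.linearEquiv 2 ℝ (Fin n → ℝ)).symm.toLinearMap ∘ M.row := by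
    funext k
    apply PiLp.ext
    intro i
    rw [iteratedDeriv_coord _ (loopOf n g hg).2.1]
    rfl
  rw [hfun]
  exact this

/-- the perturbed circle -/
noncomputable def pert (n : ℕ) (f : ℕ → V) (hf : ∀ i, Per (f i)) (ε : ℝ) : SmoothLoop n :=
  loopOf n (coords f ε) (by
    intro i
    rcases i with _ | _ | i
    · exact_mod_cast per_Cf 1
    · exact_mod_cast per_Sf 1
    · exact (hf i).smul ε)

/-- the direction of the perturbation -/
noncomputable def dirc (n : ℕ) (f : ℕ → V) (hf : ∀ i, Per (f i)) : SmoothLoop n :=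
  loopOf n (fun i => match i with
    | 0 => 0
    | 1 => 0
    | (j + 2) => f j) (by
    intro i
    rcases i with _ | _ | i
    · exact per_zero
    · exact per_zero
    · exact hf i)

theorem pert_eq (n : ℕ) (f : ℕ → V) (hf : ∀ i, Per (f i)) (ε : ℝ) :
    (pert n f hf ε).1 = (circ n 1).1 + ε • (dirc n f hf).1 := by
  funext t
  apply PiLp.ext
  intro i
  obtain ⟨i, hi⟩ := i
  change (coords f ε i).1 t = circCoord 1 t i + ε * _
  rcases i with _ | _ | i
  · simp [coords, circCoord, Cf, dirc, loopOf]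
  · simp [coords, circCoord, Sf, dirc, loopOf]
  · simp [coords, circCoord, dirc, loopOf]

theorem tendsto_pert (n : ℕ) (f : ℕ → V) (hf : ∀ i, Per (f i)) :
    Filter.Tendsto (fun ε => pert n f hf ε) (𝓝[≠] (0 : ℝ)) (𝓝 (circ n 1)) := by
  rw [nhds_iInf, Filter.tendsto_iInf]
  intro k
  rw [nhds_induced, Filter.tendsto_comap_iff, UniformFun.tendsto_iff_tendstoUniformly,
    Metric.tendstoUniformly_iff]
  intro δ hδ
  have hbd : Bornology.IsBounded (Set.range (iteratedDeriv k (dirc n f hf).1)) := by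
    have hc : Continuous (iteratedDeriv k (dirc n f hf).1) :=
      (dirc n f hf).2.1.continuous_iteratedDeriv k (by exact_mod_cast le_top)
    have hp : Function.Periodic (iteratedDeriv k (dirc n f hf).1) (2 * Real.pi) := by
      intro t
      have h1 := (dirc n f hf).2.2
      have h2 : (fun s => (dirc n f hf).1 (s + 2 * Real.pi)) = (dirc n f hf).1 := funext h1
      have h3 := iteratedDeriv_comp_add_const k (dirc n f hf).1 (2 * Real.pi)
      rw [← congrFun h3 t, h2]
    exact hp.isBounded_of_continuous (by positivity) hc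
  obtain ⟨B, hB⟩ := hbd.exists_norm_le
  have hB' : ∀ t, ‖iteratedDeriv k (dirc n f hf).1 t‖ ≤ B := fun t => hB _ ⟨t, rfl⟩
  have hB0 : 0 ≤ B := (norm_nonneg _).trans (hB' 0)
  have hev : ∀ᶠ ε in 𝓝[≠] (0 : ℝ), |ε| < δ / (B + 1) := by
    apply nhdsWithin_le_nhds
    have : Metric.ball (0 : ℝ) (δ / (B + 1)) ∈ 𝓝 (0 : ℝ) := Metric.ball_mem_nhds _ (by positivity)
    filter_upwards [this] with ε hε
    simpa [Metric.mem_ball, dist_zero_right] using hε
  filter_upwards [hev] with ε hε t
  change dist (iteratedDeriv k (circ n 1).1 t) (iteratedDeriv k (pert n f hf ε).1 t) < δ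
  rw [pert_eq, iteratedDeriv_add, iteratedDeriv_const_smul, dist_eq_norm]
  · rw [sub_add_cancel_left, norm_neg, norm_smul, Real.norm_eq_abs]
    calc |ε| * ‖iteratedDeriv k (dirc n f hf).1 t‖ ≤ |ε| * (B + 1) := by
          apply mul_le_mul_of_nonneg_left _ (abs_nonneg _)
          linarith [hB' t]
      _ < δ := by rwa [← lt_div_iff₀ (by positivity)]
  · exact ((dirc n f hf).2.1.of_le (by exact_mod_cast le_top)).contDiffAt
  · exact ((circ n 1).2.1.of_le (by exact_mod_cast le_top)).contDiffAt
  · exact (((dirc n f hf).2.1.const_smul ε).of_le (by exact_mod_cast le_top)).contDiffAt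

theorem circ_one_mem (n k : ℕ) (hn : n = k + 2) (f : ℕ → V) (hf : ∀ i, Per (f i))
    (hreg : Regular k (fun j => third (f j))) :
    ∀ U ∈ 𝓝 (circ n 1), ∃ γ ∈ U, Nondegenerate γ := by
  intro U hU
  have h1 : ∀ᶠ ε in 𝓝[≠] (0 : ℝ), pert n f hf ε ∈ U := tendsto_pert n f hf hU
  have h2 : ∀ᶠ ε in 𝓝[≠] (0 : ℝ), ε ≠ 0 := self_mem_nhdsWithin
  obtain ⟨ε, hε1, hε2⟩ := (h1.and h2).exists
  refine ⟨_, hε1, ?_⟩
  apply nondegenerate_loopOf
  rw [hn]
  exact regular_coords k f hreg ε hε2

end Run7.h773
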