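import Mathlib

/-!
Regular subdivisions of hypersimplices: general lemmas on the cells of a weight vector.
-/

set_option autoImplicit false

namespace Run7.h773.Dress

open Finset

variable {n : ℕ}

/-- The vertices of the cell of the regular subdivision of the hypersimplex induced by `w` which is
picked out by the linear functional `c`. -/
def cell (d : ℕ) (w : Finset (Fin n) → ℝ) (c : Fin n → ℝ) : Set (Finset (Fin n)) :=
  {B : Finset (Fin n) | B.card = d ∧ ∀ B' : Finset (Fin n), B'.card = d →
    w B - ∑ i ∈ B, c i ≤ w B' - ∑ i ∈ B', c i}

lemma sum_two {S : Finset (Fin n)} {i j : Fin n} (hi : i ∉ S) (hj : j ∉ S) (hij : i ≠ j)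
    (c : Fin n → ℝ) :
    ∑ x ∈ insert i (insert j S), c x = c i + c j + ∑ x ∈ S, c x := by
  rw [sum_insert, sum_insert hj]
  · ring
  · simp [hij, hi]

lemma card_two {S : Finset (Fin n)} {i j : Fin n} (hi : i ∉ S) (hj : j ∉ S) (hij : i ≠ j) :
    (insert i (insert j S)).card = S.card + 2 := by
  rw [card_insert_of_notMem, card_insert_of_notMem hj]
  simp [hij, hi]

lemma exists_cell (d : ℕ) (w : Finset (Fin n) → ℝ) (S : Finset (Fin n)) (i j k l : Fin n)
    (hS : S.card + 2 = d) (hi : i ∉ S) (hj : j ∉ S) (hk : k ∉ S) (hl : l ∉ S)
    (hij : i ≠ j) (hik : i ≠ k) (hil : i ≠ l) (hjk : j ≠ k) (hjl : j ≠ l) (hkl : k ≠ l)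
    (h1 : w (insert i (insert j S)) + w (insert k (insert l S))
      = w (insert i (insert k S)) + w (insert j (insert l S)))
    (h2 : w (insert i (insert j S)) + w (insert k (insert l S))
      ≤ w (insert i (insert l S)) + w (insert j (insert k S))) :
    ∃ c : Fin n → ℝ, insert i (insert j S) ∈ cell d w c ∧ insert k (insert l S) ∈ cell d w c ∧
      insert i (insert k S) ∈ cell d w c ∧ insert j (insert l S) ∈ cell d w c := by
  classical
  set W : ℝ := ∑ B : Finset (Fin n), |w B| with hWdef
  have hW : ∀ B, |w B| ≤ W := fun B =>
    single_le_sum (f := fun B => |w B|) (fun B _ => abs_nonneg _) (mem_univ B)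
  have hW0 : 0 ≤ W := (abs_nonneg _).trans (hW ∅)
  have hWl : ∀ B, -W ≤ w B := fun B => (abs_le.mp (hW B)).1
  have hWu : ∀ B, w B ≤ W := fun B => (abs_le.mp (hW B)).2
  obtain ⟨t, ht⟩ : ∃ t, t = w (insert i (insert l S)) + w (insert i (insert k S))
    - w (insert k (insert l S)) := ⟨_, rfl⟩
  obtain ⟨cj, hcj⟩ : ∃ cj, cj = w (insert i (insert j S)) - t := ⟨_, rfl⟩
  obtain ⟨ck, hck⟩ : ∃ ck, ck = w (insert i (insert k S)) - t := ⟨_, rfl⟩
  obtain ⟨cl, hcl⟩ : ∃ cl, cl = w (insert k (insert l S)) - w (insert i (insert k S)) := ⟨_, rfl⟩
  have htW : t ≤ 3 * W := by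
    have := hWu (insert i (insert l S)); have := hWu (insert i (insert k S))
    have := hWl (insert k (insert l S)); linarith
  have htW' : -(3 * W) ≤ t := by
    have := hWl (insert i (insert l S)); have := hWl (insert i (insert k S))
    have := hWu (insert k (insert l S)); linarith
  have hcjW : cj ≤ 4 * W := by have := hWu (insert i (insert j S)); linarith
  have hckW : ck ≤ 4 * W := by have := hWu (insert i (insert k S)); linarith
  have hclW : cl ≤ 4 * W := by
    have := hWu (insert k (insert l S)); have := hWl (insert i (insert k S)); linarith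
  set K : ℝ := 20 * W with hK
  have hK0 : 0 ≤ K := by positivity
  let c : Fin n → ℝ := fun b => if b ∈ S then K else if b = i then 0 else if b = j then cj
    else if b = k then ck else if b = l then cl else -K
  have hci : c i = 0 := by simp [c, hi]
  have hcj' : c j = cj := by simp [c, hj, hij.symm]
  have hck' : c k = ck := by simp [c, hk, hik.symm, hjk.symm]
  have hcl' : c l = cl := by simp [c, hl, hil.symm, hjl.symm, hkl.symm]
  have hcS : ∑ x ∈ S, c x = S.card * K := by
    rw [sum_congr rfl (g := fun _ => K) (fun x hx => by simp [c, hx])]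
    simp
  set Q : Finset (Fin n) := {i, j, k, l} with hQ
  have hcQ : ∀ b ∈ Q, c b ≤ 4 * W := by
    intro b hb
    simp only [hQ, mem_insert, mem_singleton] at hb
    rcases hb with rfl | rfl | rfl | rfl
    · rw [hci]; positivity
    · rw [hcj']; exact hcjW
    · rw [hck']; exact hckW
    · rw [hcl']; exact hclW
  have hcout : ∀ b, b ∉ S → b ∉ Q → c b = -K := by
    intro b hb hbQ
    simp only [hQ, mem_insert, mem_singleton, not_or] at hbQ
    simp [c, hb, hbQ.1, hbQ.2.1, hbQ.2.2.1, hbQ.2.2.2]
  have hcS' : ∀ b ∈ S, c b = K := fun b hb => by simp [c, hb]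
  have hQcard : (Q.card : ℝ) ≤ 4 := by
    have : Q.card ≤ 4 := by
      rw [hQ]
      exact card_le_four
    exact_mod_cast this
  -- the lower bound for every base
  have main : ∀ B' : Finset (Fin n), B'.card = d → t - S.card * K ≤ w B' - ∑ x ∈ B', c x := by
    intro B' hB'
    by_cases hsub : S ⊆ B'
    · by_cases hsub2 : ∀ b ∈ B', b ∈ S ∨ b ∈ Q
      · -- `B'` is `S` and two elements of `Q`
        have hcard : (B' \ S).card = 2 := by
          rw [card_sdiff_of_subset hsub]; omega
        obtain ⟨x, y, hxy, hB⟩ := card_eq_two.mp hcard
        have hx : x ∈ B' \ S := by rw [hB]; simp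
        have hy : y ∈ B' \ S := by rw [hB]; simp
        rw [mem_sdiff] at hx hy
        have hBeq : B' = insert x (insert y S) := by
          have : B' = (B' \ S) ∪ S := (sdiff_union_of_subset hsub).symm
          rw [this, hB]
          ext z
          simp
        have hxQ : x ∈ Q := (hsub2 x hx.1).resolve_left hx.2
        have hyQ : y ∈ Q := (hsub2 y hy.1).resolve_left hy.2
        rw [hBeq, sum_two hx.2 hy.2 hxy, hcS]
        have key : ∀ x y : Fin n, x ∈ Q → y ∈ Q → x ≠ y →
            t ≤ w (insert x (insert y S)) - (c x + c y) := by
          intro x y hx hy hxy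
          have e1 := Finset.insert_comm i j S
          have e2 := Finset.insert_comm i k S
          have e3 := Finset.insert_comm i l S
          have e4 := Finset.insert_comm j k S
          have e5 := Finset.insert_comm j l S
          have e6 := Finset.insert_comm k l S
          simp only [hQ, mem_insert, mem_singleton] at hx hy
          rcases hx with rfl | rfl | rfl | rfl <;> rcases hy with rfl | rfl | rfl | rfl <;>
            first
            | exact absurd rfl hxy
            | (simp only [hci, hcj', hck', hcl']; linarith)
            | (simp only [hci, hcj', hck', hcl', ← e1, ← e2, ← e3, ← e4, ← e5, ← e6]; linarith)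
        have := key x y hxQ hyQ hxy
        linarith
      · push Not at hsub2
        obtain ⟨a, haB, haS, haQ⟩ := hsub2
        have hb : ∑ x ∈ B'.erase a, c x ≤ S.card * K + 4 * (4 * W) := by
          calc ∑ x ∈ B'.erase a, c x
              ≤ ∑ x ∈ B'.erase a, ((if x ∈ S then K else 0) + (if x ∈ Q then 4 * W else 0)) := by
                apply sum_le_sum
                intro b _
                by_cases hbS : b ∈ S
                · rw [hcS' b hbS, if_pos hbS]
                  have : 0 ≤ (if b ∈ Q then 4 * W else 0) := by split_ifs <;> positivity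
                  linarith
                · by_cases hbQ : b ∈ Q
                  · rw [if_neg hbS, if_pos hbQ]
                    have := hcQ b hbQ
                    linarith
                  · rw [if_neg hbS, if_neg hbQ, hcout b hbS hbQ]
                    linarith
            _ ≤ ∑ x : Fin n, ((if x ∈ S then K else 0) + (if x ∈ Q then 4 * W else 0)) := by
                apply sum_le_sum_of_subset_of_nonneg (subset_univ _)
                intro b _ _
                have : 0 ≤ (if b ∈ Q then 4 * W else 0) := by split_ifs <;> positivity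
                have : 0 ≤ (if b ∈ S then K else 0) := by split_ifs <;> positivity
                linarith
            _ = S.card * K + Q.card * (4 * W) := by
                rw [sum_add_distrib]
                simp
            _ ≤ S.card * K + 4 * (4 * W) := by
                have : (Q.card : ℝ) * (4 * W) ≤ 4 * (4 * W) :=
                  mul_le_mul_of_nonneg_right hQcard (by positivity)
                linarith
        have hsum : ∑ x ∈ B', c x = c a + ∑ x ∈ B'.erase a, c x :=
          (add_sum_erase B' c haB).symm
        rw [hcout a haS haQ] at hsum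
        have := hWl B'
        linarith
    · -- some element of `S` is missing
      rw [not_subset] at hsub
      obtain ⟨a, haS, haB⟩ := hsub
      have hb : ∑ x ∈ B', c x ≤ ((S.card : ℝ) - 1) * K + 4 * (4 * W) := by
        calc ∑ x ∈ B', c x
            ≤ ∑ x ∈ B', ((if x ∈ S.erase a then K else 0) + (if x ∈ Q then 4 * W else 0)) := by
              apply sum_le_sum
              intro b hb
              have hba : b ≠ a := fun h => haB (h ▸ hb)
              by_cases hbS : b ∈ S
              · rw [hcS' b hbS, if_pos (mem_erase.mpr ⟨hba, hbS⟩)]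
                have : 0 ≤ (if b ∈ Q then 4 * W else 0) := by split_ifs <;> positivity
                linarith
              · have hbS' : b ∉ S.erase a := fun h => hbS (mem_of_mem_erase h)
                by_cases hbQ : b ∈ Q
                · rw [if_neg hbS', if_pos hbQ]
                  have := hcQ b hbQ
                  linarith
                · rw [if_neg hbS', if_neg hbQ, hcout b hbS hbQ]
                  linarith
          _ ≤ ∑ x : Fin n, ((if x ∈ S.erase a then K else 0) + (if x ∈ Q then 4 * W else 0)) := by
              apply sum_le_sum_of_subset_of_nonneg (subset_univ _)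
              intro b _ _
              have : 0 ≤ (if b ∈ Q then 4 * W else 0) := by split_ifs <;> positivity
              have : 0 ≤ (if b ∈ S.erase a then K else 0) := by split_ifs <;> positivity
              linarith
          _ = (S.erase a).card * K + Q.card * (4 * W) := by
              rw [sum_add_distrib, ← sum_filter, ← sum_filter, filter_mem_eq_inter,
                filter_mem_eq_inter, univ_inter, univ_inter, sum_const, sum_const, nsmul_eq_mul,
                nsmul_eq_mul]
          _ ≤ ((S.card : ℝ) - 1) * K + 4 * (4 * W) := by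
              have h3 : (Q.card : ℝ) * (4 * W) ≤ 4 * (4 * W) :=
                mul_le_mul_of_nonneg_right hQcard (by positivity)
              have h4 : ((S.erase a).card : ℝ) = (S.card : ℝ) - 1 := by
                have := card_erase_add_one haS
                have h5 : ((S.erase a).card : ℝ) + 1 = S.card := by exact_mod_cast this
                linarith
              rw [h4]
              linarith
      have := hWl B'
      linarith
  have mem : ∀ x y : Fin n, x ∉ S → y ∉ S → x ≠ y →
      w (insert x (insert y S)) - (c x + c y) = t → insert x (insert y S) ∈ cell d w c := by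
    intro x y hx hy hxy h
    refine ⟨by rw [card_two hx hy hxy, hS], fun B' hB' => ?_⟩
    have := main B' hB'
    rw [sum_two hx hy hxy, hcS]
    linarith
  refine ⟨c, mem i j hi hj hij ?_, mem k l hk hl hkl ?_, mem i k hi hk hik ?_,
    mem j l hj hl hjl ?_⟩
  · rw [hci, hcj']; linarith
  · rw [hck', hcl']; linarith
  · rw [hci, hck']; linarith
  · rw [hcj', hcl']; linarith

/-- Equalities and inequalities of a weight are inherited by every coarser weight. -/
lemma inherit (d : ℕ) (w v : Finset (Fin n) → ℝ)
    (h : ∀ c : Fin n → ℝ, ∃ c' : Fin n → ℝ, cell d w c ⊆ cell d v c')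
    (S : Finset (Fin n)) (i j k l : Fin n)
    (hS : S.card + 2 = d) (hi : i ∉ S) (hj : j ∉ S) (hk : k ∉ S) (hl : l ∉ S)
    (hij : i ≠ j) (hik : i ≠ k) (hil : i ≠ l) (hjk : j ≠ k) (hjl : j ≠ l) (hkl : k ≠ l)
    (h1 : w (insert i (insert j S)) + w (insert k (insert l S))
      = w (insert i (insert k S)) + w (insert j (insert l S)))
    (h2 : w (insert i (insert j S)) + w (insert k (insert l S))
      ≤ w (insert i (insert l S)) + w (insert j (insert k S))) :
    v (insert i (insert j S)) + v (insert k (insert l S))
      = v (insert i (insert k S)) + v (insert j (insert l S)) ∧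
    v (insert i (insert j S)) + v (insert k (insert l S))
      ≤ v (insert i (insert l S)) + v (insert j (insert k S)) := by
  obtain ⟨c, m1, m2, m3, m4⟩ := exists_cell d w S i j k l hS hi hj hk hl hij hik hil hjk hjl hkl
    h1 h2
  obtain ⟨c', hc'⟩ := h c
  have n1 := hc' m1
  have n2 := hc' m2
  have n3 := hc' m3
  have n4 := hc' m4
  have q1 := n1.2 _ n3.1
  have q2 := n2.2 _ n4.1
  have q3 := n3.2 _ n1.1
  have q4 := n4.2 _ n2.1
  have c5 : (insert i (insert l S)).card = d := by rw [card_two hi hl hil, hS]
  have c6 : (insert j (insert k S)).card = d := by rw [card_two hj hk hjk, hS]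
  have q5 := n1.2 _ c5
  have q6 := n2.2 _ c6
  simp only [sum_two hi hj hij, sum_two hk hl hkl, sum_two hi hk hik, sum_two hj hl hjl,
    sum_two hi hl hil, sum_two hj hk hjk] at q1 q2 q3 q4 q5 q6
  constructor <;> linarith

/-- A weight inducing the trivial subdivision satisfies all relations with equality. -/
lemma rel_of_trivial (d : ℕ) (w : Finset (Fin n) → ℝ) (c : Fin n → ℝ)
    (h : ∀ B : Finset (Fin n), B.card = d → ∀ B' : Finset (Fin n), B'.card = d →
      w B - ∑ i ∈ B, c i ≤ w B' - ∑ i ∈ B', c i)
    (S : Finset (Fin n)) (i j k l : Fin n)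
    (hS : S.card + 2 = d) (hi : i ∉ S) (hj : j ∉ S) (hk : k ∉ S) (hl : l ∉ S)
    (hij : i ≠ j) (hik : i ≠ k) (hjl : j ≠ l) (hkl : k ≠ l) :
    w (insert i (insert j S)) + w (insert k (insert l S))
      = w (insert i (insert k S)) + w (insert j (insert l S)) := by
  have c1 : (insert i (insert j S)).card = d := by rw [card_two hi hj hij, hS]
  have c2 : (insert k (insert l S)).card = d := by rw [card_two hk hl hkl, hS]
  have c3 : (insert i (insert k S)).card = d := by rw [card_two hi hk hik, hS]
  have c4 : (insert j (insert l S)).card = d := by rw [card_two hj hl hjl, hS]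
  have q1 := h _ c1 _ c3
  have q2 := h _ c3 _ c1
  have q3 := h _ c2 _ c4
  have q4 := h _ c4 _ c2
  simp only [sum_two hi hj hij, sum_two hk hl hkl, sum_two hi hk hik, sum_two hj hl hjl]
    at q1 q2 q3 q4
  linarith

end Run7.h773.Dress
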