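import Pool.Agent.Run7.h773.Dress

/-!
An explicit tropical Pluecker vector of type `(4, 8)`, spanning a ray of the Dressian, with an
octahedral jump equal to `3`.
-/

set_option autoImplicit false

namespace Run7.h773.Dress

open Finset

/-- The bit mask of a set. -/
def mask (B : Finset (Fin 8)) : ℕ := ∑ i ∈ B, 2 ^ (i : ℕ)

/-- The table of values (plus one), two bits for each mask. -/
def tab : ℕ := 6243497298332117517198969716714906920681275405041247365109243011773798424443509567197185266448046367831819140015924157662616858946581190785630208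

/-- The value (plus one) of the weight at the set with mask `m`. -/
def f (m : ℕ) : ℕ := (tab >>> (2 * m)) &&& 3

/-- The mask of `{p, q, i, j}`. -/
def mk (p q i j : ℕ) : ℕ := 2 ^ p + 2 ^ q + 2 ^ i + 2 ^ j

/-- The value (plus one) at `{p, q, i, j}`. -/
def g (p q i j : ℕ) : ℕ := f (mk p q i j)

/-- The weight. -/
def w (B : Finset (Fin 8)) : ℝ := (f (mask B) : ℝ) - 1

/-- The minimum of three numbers is attained twice. -/
def okB (a b c : ℕ) : Bool :=
  (Nat.beq a b && Nat.ble a c) || (Nat.beq a c && Nat.ble a b) || (Nat.beq b c && Nat.ble b a)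

/-- All three-term relations hold. -/
def chk : Bool :=
  (List.range 8).all fun p => (List.range 8).all fun q => Nat.beq p q ||
    (List.range 8).all fun i => Nat.beq i p || Nat.beq i q ||
      (List.range 8).all fun j => Nat.beq j p || Nat.beq j q || Nat.beq j i ||
        (List.range 8).all fun k => Nat.beq k p || Nat.beq k q || Nat.beq k i || Nat.beq k j ||
          (List.range 8).all fun l => Nat.beq l p || Nat.beq l q || Nat.beq l i || Nat.beq l j ||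
            Nat.beq l k ||
            okB (g p q i j + g p q k l) (g p q i k + g p q j l) (g p q i l + g p q j k)

lemma chk_true : chk = true := by decide +kernel

/-- The steps of the propagation: `(p, q, i, j, k, l)` deduces the vanishing at `{p, q, i, j}` from
the vanishing at `{p, q, k, l}`, `{p, q, i, k}`, `{p, q, j, l}`. -/
def steps : List (ℕ × ℕ × ℕ × ℕ × ℕ × ℕ) :=
  [(0, 1, 3, 5, 4, 2), (0, 1, 4, 6, 3, 2), (0, 1, 3, 7, 4, 2), (0, 1, 5, 6, 3, 2),
   (0, 1, 6, 7, 2, 3), (0, 1, 5, 7, 4, 2), (0, 1, 4, 7, 3, 5), (0, 2, 4, 5, 3, 1),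
   (0, 2, 4, 6, 3, 1), (0, 2, 5, 6, 1, 4), (0, 2, 3, 5, 4, 6), (0, 2, 3, 6, 4, 5),
   (1, 2, 3, 5, 4, 0), (1, 2, 3, 6, 4, 0), (1, 2, 4, 7, 3, 0), (1, 2, 5, 7, 3, 0),
   (1, 2, 6, 7, 3, 0), (0, 3, 4, 5, 1, 2), (0, 3, 4, 6, 1, 2), (0, 3, 5, 6, 1, 2),
   (0, 3, 6, 7, 2, 1), (1, 3, 4, 6, 0, 2), (1, 3, 4, 7, 2, 0), (1, 3, 5, 6, 0, 2),
   (1, 3, 5, 7, 2, 0), (1, 3, 6, 7, 2, 0), (1, 3, 2, 7, 4, 6), (2, 3, 4, 5, 0, 1),
   (2, 3, 4, 6, 0, 1), (2, 3, 5, 6, 0, 1), (0, 4, 5, 6, 2, 1), (1, 4, 3, 5, 2, 0),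
   (1, 4, 5, 7, 0, 2), (1, 4, 6, 7, 0, 2), (1, 4, 5, 6, 0, 3), (1, 4, 2, 5, 3, 6),
   (2, 4, 5, 6, 1, 0), (2, 4, 0, 7, 5, 1), (2, 4, 6, 7, 0, 1), (2, 4, 1, 6, 0, 7),
   (2, 4, 3, 7, 5, 0), (3, 4, 0, 7, 1, 2), (3, 4, 5, 6, 0, 1), (3, 4, 5, 7, 0, 1),
   (3, 4, 6, 7, 1, 0), (1, 5, 6, 7, 0, 2), (2, 5, 1, 6, 0, 4), (2, 5, 0, 7, 4, 1),
   (2, 5, 6, 7, 0, 1), (2, 5, 3, 7, 4, 0), (3, 5, 0, 7, 1, 2), (3, 5, 6, 7, 1, 0),
   (4, 5, 0, 7, 2, 1), (4, 5, 6, 7, 2, 0), (4, 5, 2, 7, 1, 6), (2, 6, 0, 7, 1, 4),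
   (2, 6, 3, 7, 4, 0), (3, 6, 0, 1, 2, 7), (4, 6, 0, 7, 1, 2), (5, 6, 0, 7, 1, 2),
   (0, 7, 2, 3, 6, 1)]

/-- The masks of the nine initial bases. -/
def init : List ℕ := [15, 23, 39, 71, 135, 30, 29, 27, 51]

/-- The step is a legitimate deduction. -/
def good (p q i j k l : ℕ) : Bool :=
  Nat.ble (p + 1) 8 && Nat.ble (q + 1) 8 && Nat.ble (i + 1) 8 && Nat.ble (j + 1) 8 &&
  Nat.ble (k + 1) 8 && Nat.ble (l + 1) 8 &&
  !Nat.beq p q && !Nat.beq i p && !Nat.beq i q && !Nat.beq j p && !Nat.beq j q && !Nat.beq j i &&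
  !Nat.beq k p && !Nat.beq k q && !Nat.beq k i && !Nat.beq k j &&
  !Nat.beq l p && !Nat.beq l q && !Nat.beq l i && !Nat.beq l j && !Nat.beq l k &&
  Nat.beq (g p q i j + g p q k l) (g p q i k + g p q j l) &&
  Nat.ble (g p q i j + g p q k l) (g p q i l + g p q j k)

/-- Run the deductions. -/
def run : List (ℕ × ℕ × ℕ × ℕ × ℕ × ℕ) → List ℕ → List ℕ
  | [], K => K
  | (p, q, i, j, k, l) :: ts, K =>
    if good p q i j k l && K.elem (mk p q k l) && K.elem (mk p q i k) && K.elem (mk p q j l) then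
      run ts (mk p q i j :: K) else run ts K

/-- All masks of four-element sets are reached. -/
lemma run_all : (List.range 8).all (fun p => (List.range 8).all fun q => Nat.ble q p ||
    (List.range 8).all fun i => Nat.ble i q || (List.range 8).all fun j => Nat.ble j i ||
      (run steps init).elem (mk p q i j)) = true := by decide +kernel

end Run7.h773.Dress
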