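import Pool.Agent.Run7.h773.DressMain

set_option autoImplicit false

namespace Run7.h773.Dress

open Finset

lemma w_val {B : Finset (Fin 8)} {m v : ℕ} (hB : mask B = m) (hm : f m = v) :
    w B = (v : ℝ) - 1 := by
  unfold w
  rw [hB, hm]

lemma w15 : w {0, 1, 2, 3} = 0 := by
  rw [w_val (m := 15) (v := 1) (by decide) (by decide +kernel)]; norm_num

/-- Vectors satisfying the equalities of `w` are combinations of `w` and linear functionals. -/
lemma solve (v : Finset (Fin 8) → ℝ) (hv : Inh v) :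
    ∃ (lam : ℝ) (a : Fin 8 → ℝ), ∀ B : Finset (Fin 8), B.card = 4 →
      v B = lam * w B + ∑ i ∈ B, a i := by
  obtain ⟨a3, h3⟩ : ∃ a3, a3 = (v {0, 1, 2, 3} - 3 * v {0, 1, 2, 4} + v {1, 2, 3, 4}
    + v {0, 2, 3, 4} + v {0, 1, 3, 4}) / 4 := ⟨_, rfl⟩
  obtain ⟨a4, h4⟩ : ∃ a4, a4 = a3 + v {0, 1, 2, 4} - v {0, 1, 2, 3} := ⟨_, rfl⟩
  obtain ⟨a5, h5⟩ : ∃ a5, a5 = a3 + v {0, 1, 2, 5} - v {0, 1, 2, 3} := ⟨_, rfl⟩
  obtain ⟨a6, h6⟩ : ∃ a6, a6 = a3 + v {0, 1, 2, 6} - v {0, 1, 2, 3} := ⟨_, rfl⟩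
  obtain ⟨a7, h7⟩ : ∃ a7, a7 = a3 + v {0, 1, 2, 7} - v {0, 1, 2, 3} := ⟨_, rfl⟩
  obtain ⟨a0, h0⟩ : ∃ a0, a0 = a4 + v {0, 1, 2, 3} - v {1, 2, 3, 4} := ⟨_, rfl⟩
  obtain ⟨a1, h1⟩ : ∃ a1, a1 = a4 + v {0, 1, 2, 3} - v {0, 2, 3, 4} := ⟨_, rfl⟩
  obtain ⟨a2, h2⟩ : ∃ a2, a2 = a4 + v {0, 1, 2, 3} - v {0, 1, 3, 4} := ⟨_, rfl⟩
  obtain ⟨lam, hl⟩ : ∃ lam, lam = v {0, 1, 4, 5} - (a0 + a1 + a4 + a5) := ⟨_, rfl⟩
  let a : Fin 8 → ℝ := ![a0, a1, a2, a3, a4, a5, a6, a7]
  refine ⟨lam, a, fun B hB => ?_⟩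
  let U : Finset (Fin 8) → ℝ := fun B => v B - lam * w B - ∑ i ∈ B, a i
  have hU : Inh U := by
    intro S i j k l hS hi hj hk hl hij hik hil hjk hjl hkl e1 e2
    have := hv S i j k l hS hi hj hk hl hij hik hil hjk hjl hkl e1 e2
    simp only [U, sum_two hi hj hij, sum_two hk hl hkl, sum_two hi hk hik, sum_two hj hl hjl]
    linear_combination this - lam * e1
  have hz : ∀ (C : Finset (Fin 8)) (x : ℕ), f (mask C) = x →
      v C - lam * ((x : ℝ) - 1) - ∑ i ∈ C, a i = 0 → Z U (mask C) := by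
    intro C x hx hC B hB
    rw [mask_inj hB]
    simp only [U]
    rw [w_val rfl hx]
    exact hC
  have hs : ∀ (x y z t : Fin 8), x ∉ ({y, z, t} : Finset (Fin 8)) → y ∉ ({z, t} : Finset (Fin 8)) →
      z ∉ ({t} : Finset (Fin 8)) → ∑ i ∈ ({x, y, z, t} : Finset (Fin 8)), a i
        = a x + a y + a z + a t := by
    intro x y z t hx hy hz
    rw [sum_insert hx, sum_insert hy, sum_insert hz, sum_singleton]
    ring
  have hinit : ∀ m ∈ init, Z U m := by
    intro m hm
    simp only [init, List.mem_cons, List.not_mem_nil, or_false] at hm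
    rcases hm with rfl | rfl | rfl | rfl | rfl | rfl | rfl | rfl | rfl
    · refine (show mask {0, 1, 2, 3} = 15 by decide) ▸ hz _ 1 (by decide +kernel) ?_
      rw [hs _ _ _ _ (by decide) (by decide) (by decide)]
      show _ - _ - (a0 + a1 + a2 + a3) = 0
      push_cast
      linarith
    · refine (show mask {0, 1, 2, 4} = 23 by decide) ▸ hz _ 1 (by decide +kernel) ?_
      rw [hs _ _ _ _ (by decide) (by decide) (by decide)]
      show _ - _ - (a0 + a1 + a2 + a4) = 0
      push_cast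
      linarith
    · refine (show mask {0, 1, 2, 5} = 39 by decide) ▸ hz _ 1 (by decide +kernel) ?_
      rw [hs _ _ _ _ (by decide) (by decide) (by decide)]
      show _ - _ - (a0 + a1 + a2 + a5) = 0
      push_cast
      linarith
    · refine (show mask {0, 1, 2, 6} = 71 by decide) ▸ hz _ 1 (by decide +kernel) ?_
      rw [hs _ _ _ _ (by decide) (by decide) (by decide)]
      show _ - _ - (a0 + a1 + a2 + a6) = 0
      push_cast
      linarith
    · refine (show mask {0, 1, 2, 7} = 135 by decide) ▸ hz _ 1 (by decide +kernel) ?_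
      rw [hs _ _ _ _ (by decide) (by decide) (by decide)]
      show _ - _ - (a0 + a1 + a2 + a7) = 0
      push_cast
      linarith
    · refine (show mask {1, 2, 3, 4} = 30 by decide) ▸ hz _ 1 (by decide +kernel) ?_
      rw [hs _ _ _ _ (by decide) (by decide) (by decide)]
      show _ - _ - (a1 + a2 + a3 + a4) = 0
      push_cast
      linarith
    · refine (show mask {0, 2, 3, 4} = 29 by decide) ▸ hz _ 1 (by decide +kernel) ?_
      rw [hs _ _ _ _ (by decide) (by decide) (by decide)]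
      show _ - _ - (a0 + a2 + a3 + a4) = 0
      push_cast
      linarith
    · refine (show mask {0, 1, 3, 4} = 27 by decide) ▸ hz _ 1 (by decide +kernel) ?_
      rw [hs _ _ _ _ (by decide) (by decide) (by decide)]
      show _ - _ - (a0 + a1 + a3 + a4) = 0
      push_cast
      linarith
    · refine (show mask {0, 1, 4, 5} = 51 by decide) ▸ hz _ 2 (by decide +kernel) ?_
      rw [hs _ _ _ _ (by decide) (by decide) (by decide)]
      show _ - _ - (a0 + a1 + a4 + a5) = 0
      push_cast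
      linarith
  have := all_zero U hU hinit B hB
  simp only [U] at this
  linarith

/-- `U` also inherits the inequality in the octahedron `{0, 1} ⊆ {0, 1, 2, 3, 4, 5}`. -/
lemma lam_nonneg (v : Finset (Fin 8) → ℝ)
    (h : ∀ c : Fin 8 → ℝ, ∃ c' : Fin 8 → ℝ, cell 4 w c ⊆ cell 4 v c')
    (lam : ℝ) (a : Fin 8 → ℝ)
    (hva : ∀ B : Finset (Fin 8), B.card = 4 → v B = lam * w B + ∑ i ∈ B, a i) : 0 ≤ lam := by
  have e1 : w (insert 2 (insert 4 {0, 1})) = 0 := by
    rw [w_val (m := 23) (v := 1) (by decide) (by decide +kernel)]; norm_num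
  have e2 : w (insert 5 (insert 3 {0, 1})) = 0 := by
    rw [w_val (m := 43) (v := 1) (by decide) (by decide +kernel)]; norm_num
  have e3 : w (insert 2 (insert 5 {0, 1})) = 0 := by
    rw [w_val (m := 39) (v := 1) (by decide) (by decide +kernel)]; norm_num
  have e4 : w (insert 4 (insert 3 {0, 1})) = 0 := by
    rw [w_val (m := 27) (v := 1) (by decide) (by decide +kernel)]; norm_num
  have e5 : w (insert 2 (insert 3 {0, 1})) = 0 := by
    rw [w_val (m := 15) (v := 1) (by decide) (by decide +kernel)]; norm_num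
  have e6 : w (insert 4 (insert 5 {0, 1})) = 1 := by
    rw [w_val (m := 51) (v := 2) (by decide) (by decide +kernel)]; norm_num
  have := (inherit 4 w v h {0, 1} 2 4 5 3 (by decide) (by decide) (by decide) (by decide)
    (by decide) (by decide) (by decide) (by decide) (by decide) (by decide) (by decide)
    (by rw [e1, e2, e3, e4]) (by rw [e1, e2, e5, e6]; norm_num)).2
  rw [hva _ (by decide), hva _ (by decide), hva _ (by decide), hva _ (by decide),
    e1, e2, e5, e6, sum_two (by decide) (by decide) (by decide),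
    sum_two (by decide) (by decide) (by decide), sum_two (by decide) (by decide) (by decide),
    sum_two (by decide) (by decide) (by decide)] at this
  linarith

lemma inh_of (v : Finset (Fin 8) → ℝ)
    (h : ∀ c : Fin 8 → ℝ, ∃ c' : Fin 8 → ℝ, cell 4 w c ⊆ cell 4 v c') : Inh v :=
  fun S i j k l hS hi hj hk hl hij hik hil hjk hjl hkl h1 h2 =>
    (inherit 4 w v h S i j k l hS hi hj hk hl hij hik hil hjk hjl hkl h1 h2).1

/-- The weight does not induce the trivial subdivision. -/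
lemma nontrivial : ¬ ∃ c : Fin 8 → ℝ, ∀ B : Finset (Fin 8), B.card = 4 →
    ∀ B' : Finset (Fin 8), B'.card = 4 → w B - ∑ i ∈ B, c i ≤ w B' - ∑ i ∈ B', c i := by
  rintro ⟨c, hc⟩
  have := rel_of_trivial 4 w c hc {0, 1} 2 3 4 5 (by decide) (by decide) (by decide) (by decide)
    (by decide) (by decide) (by decide) (by decide) (by decide)
  rw [w_val (m := 15) (v := 1) (by decide) (by decide +kernel),
    w_val (m := 51) (v := 2) (by decide) (by decide +kernel),
    w_val (m := 23) (v := 1) (by decide) (by decide +kernel),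
    w_val (m := 43) (v := 1) (by decide) (by decide +kernel)] at this
  norm_num at this

/-- The weight spans a ray. -/
lemma coarsest (v : Finset (Fin 8) → ℝ)
    (h : ∀ c : Fin 8 → ℝ, ∃ c' : Fin 8 → ℝ, cell 4 w c ⊆ cell 4 v c') :
    (∃ c : Fin 8 → ℝ, ∀ B : Finset (Fin 8), B.card = 4 →
      ∀ B' : Finset (Fin 8), B'.card = 4 → v B - ∑ i ∈ B, c i ≤ v B' - ∑ i ∈ B', c i) ∨
    ((∀ c : Fin 8 → ℝ, ∃ c' : Fin 8 → ℝ, cell 4 w c = cell 4 v c') ∧
      (∀ c : Fin 8 → ℝ, ∃ c' : Fin 8 → ℝ, cell 4 v c = cell 4 w c')) := by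
  obtain ⟨lam, a, hva⟩ := solve v (inh_of v h)
  have hl := lam_nonneg v h lam a hva
  rcases hl.eq_or_lt with h0 | hpos
  · left
    refine ⟨a, fun B hB B' hB' => ?_⟩
    rw [hva B hB, hva B' hB', ← h0]
    linarith
  · right
    have key : ∀ c c' : Fin 8 → ℝ, (∀ i, c' i = lam * c i + a i) → cell 4 w c = cell 4 v c' := by
      intro c c' hc
      have hs : ∀ B : Finset (Fin 8), B.card = 4 →
          v B - ∑ i ∈ B, c' i = lam * (w B - ∑ i ∈ B, c i) := by
        intro B hB
        rw [hva B hB, sum_congr rfl (fun i _ => hc i), sum_add_distrib, ← mul_sum]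
        ring
      ext B
      simp only [cell, Set.mem_ofPred_eq]
      constructor
      · rintro ⟨hB, h2⟩
        refine ⟨hB, fun B' hB' => ?_⟩
        rw [hs B hB, hs B' hB']
        exact mul_le_mul_of_nonneg_left (h2 B' hB') hpos.le
      · rintro ⟨hB, h2⟩
        refine ⟨hB, fun B' hB' => ?_⟩
        have := h2 B' hB'
        rw [hs B hB, hs B' hB'] at this
        exact le_of_mul_le_mul_left this hpos
    refine ⟨fun c => ⟨fun i => lam * c i + a i, key _ _ fun i => rfl⟩, fun c =>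
      ⟨fun i => (c i - a i) / lam, (key _ _ fun i => ?_).symm⟩⟩
    field_simp
    ring

/-- The rank function of a matroid gives octahedral jumps at most two. -/
lemma rank_jump (M : Matroid (Fin 8)) (x : Fin 8) (S T : Set (Fin 8)) (hST : S ⊆ T) :
    (M.eRk (insert x S)).toNat ≤ (M.eRk T).toNat + 1 := by
  have h1 : M.eRk (insert x S) ≤ M.eRk T + 1 :=
    (M.eRk_insert_le_add_one x S).trans (add_le_add_left (M.eRk_mono hST) 1)
  have hT : M.eRk T ≠ ⊤ := by
    have := M.eRk_le_encard T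
    exact ne_top_of_le_ne_top (Set.toFinite T).encard_lt_top.ne this
  have h2 : M.eRk T + 1 ≠ ⊤ := by simp [hT]
  have := ENat.toNat_le_toNat h1 h2
  rwa [ENat.toNat_add hT (by simp)] at this

/-- The subdivision is not a corank subdivision. -/
lemma not_corank : ¬ ∃ M : Matroid (Fin 8), M.E = Set.univ ∧ M.eRank = ((4 : ℕ) : ℕ∞) ∧
    (∀ c : Fin 8 → ℝ, ∃ c' : Fin 8 → ℝ, cell 4 w c = cell 4
      (fun B => (((4 : ℕ) : ℝ) - ((M.eRk (B : Set (Fin 8))).toNat : ℝ))) c') ∧
    (∀ c : Fin 8 → ℝ, ∃ c' : Fin 8 → ℝ, cell 4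
      (fun B => (((4 : ℕ) : ℝ) - ((M.eRk (B : Set (Fin 8))).toNat : ℝ))) c = cell 4 w c') := by
  rintro ⟨M, -, -, h1, h2⟩
  let r : Finset (Fin 8) → ℕ := fun B => (M.eRk (B : Set (Fin 8))).toNat
  let v : Finset (Fin 8) → ℝ := fun B => (((4 : ℕ) : ℝ) - (r B : ℝ))
  have h : ∀ c : Fin 8 → ℝ, ∃ c' : Fin 8 → ℝ, cell 4 w c ⊆ cell 4 v c' := fun c => by
    obtain ⟨c', hc'⟩ := h1 c
    exact ⟨c', hc'.subset⟩
  obtain ⟨lam, a, hva⟩ := solve v (inh_of v h)
  have hl := lam_nonneg v h lam a hva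
  -- `lam` is an integer
  have e1 : (r {2, 4, 0, 1} : ℝ) + r {3, 5, 0, 1} - r {2, 3, 0, 1} - r {4, 5, 0, 1} = lam := by
    have q1 := hva (insert 2 (insert 4 {0, 1})) (by decide)
    have q2 := hva (insert 3 (insert 5 {0, 1})) (by decide)
    have q3 := hva (insert 2 (insert 3 {0, 1})) (by decide)
    have q4 := hva (insert 4 (insert 5 {0, 1})) (by decide)
    rw [w_val (m := 23) (v := 1) (by decide) (by decide +kernel),
      sum_two (by decide) (by decide) (by decide)] at q1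
    rw [w_val (m := 43) (v := 1) (by decide) (by decide +kernel),
      sum_two (by decide) (by decide) (by decide)] at q2
    rw [w_val (m := 15) (v := 1) (by decide) (by decide +kernel),
      sum_two (by decide) (by decide) (by decide)] at q3
    rw [w_val (m := 51) (v := 2) (by decide) (by decide +kernel),
      sum_two (by decide) (by decide) (by decide)] at q4
    simp only [v] at q1 q2 q3 q4
    push_cast at q1 q2 q3 q4
    linarith
  have e2 : (r {0, 4, 6, 7} : ℝ) + r {3, 5, 6, 7} - r {0, 3, 6, 7} - r {4, 5, 6, 7}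
      = 3 * lam := by
    have q1 := hva (insert 0 (insert 4 {6, 7})) (by decide)
    have q2 := hva (insert 3 (insert 5 {6, 7})) (by decide)
    have q3 := hva (insert 0 (insert 3 {6, 7})) (by decide)
    have q4 := hva (insert 4 (insert 5 {6, 7})) (by decide)
    rw [sum_two (by decide) (by decide) (by decide)] at q1 q2 q3 q4
    have s : w (insert 0 (insert 3 {6, 7})) + w (insert 4 (insert 5 {6, 7}))
        - w (insert 0 (insert 4 {6, 7})) - w (insert 3 (insert 5 {6, 7})) = 3 := by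
      unfold w
      have : f (mask (insert 0 (insert 3 {6, 7}))) + f (mask (insert 4 (insert 5 {6, 7})))
        = 3 + f (mask (insert 0 (insert 4 {6, 7}))) + f (mask (insert 3 (insert 5 {6, 7}))) := by
        decide +kernel
      have h3 : (f (mask (insert 0 (insert 3 {6, 7}))) : ℝ)
        + f (mask (insert 4 (insert 5 {6, 7}))) = 3 + f (mask (insert 0 (insert 4 {6, 7})))
          + f (mask (insert 3 (insert 5 {6, 7}))) := by exact_mod_cast this
      linarith
    simp only [v] at q1 q2 q3 q4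
    linear_combination q3 + q4 - q1 - q2 + lam * s
  have j1 : r {0, 4, 6, 7} ≤ r {0, 3, 6, 7} + 1 := by
    have := rank_jump M 4 {0, 6, 7} {0, 3, 6, 7} (by
      intro z hz; simp only [Set.mem_insert_iff, Set.mem_singleton_iff] at hz ⊢; tauto)
    simp only [r]
    push_cast
    rwa [Set.insert_comm] at this
  have j2 : r {3, 5, 6, 7} ≤ r {4, 5, 6, 7} + 1 := by
    have := rank_jump M 3 {5, 6, 7} {4, 5, 6, 7} (by
      intro z hz; simp only [Set.mem_insert_iff, Set.mem_singleton_iff] at hz ⊢; tauto)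
    simp only [r]
    push_cast
    exact this
  have j1' : (r {0, 4, 6, 7} : ℝ) ≤ r {0, 3, 6, 7} + 1 := by exact_mod_cast j1
  have j2' : (r {3, 5, 6, 7} : ℝ) ≤ r {4, 5, 6, 7} + 1 := by exact_mod_cast j2
  obtain ⟨z, hz⟩ : ∃ z : ℤ, (z : ℝ) = lam :=
    ⟨(r {2, 4, 0, 1} : ℤ) + r {3, 5, 0, 1} - r {2, 3, 0, 1} - r {4, 5, 0, 1}, by
      rw [← e1]; push_cast; ring⟩
  have hz0 : z = 0 := by
    have h5 : (3 * z : ℤ) ≤ 2 := by
      have : (3 * (z : ℝ)) ≤ 2 := by rw [hz]; linarith
      exact_mod_cast this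
    have h6 : (0 : ℤ) ≤ z := by
      have : (0 : ℝ) ≤ z := by rw [hz]; exact hl
      exact_mod_cast this
    omega
  have hlam : lam = 0 := by rw [← hz, hz0]; norm_num
  obtain ⟨c', hc'⟩ := h2 a
  refine nontrivial ⟨c', fun B hB B' hB' => ?_⟩
  have hmem : B ∈ cell 4 v a := by
    refine ⟨hB, fun B'' hB'' => ?_⟩
    rw [hva B hB, hva B'' hB'', hlam]
    linarith
  have hmem' : B ∈ cell 4 w c' := by
    rw [← hc']
    exact hmem
  exact hmem'.2 B' hB'

end Run7.h773.Dress
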