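import Pool.Agent.Run7.h773.DressData

/-!
The explicit weight of type `(4, 8)` is a tropical Pluecker vector, spans a ray of the Dressian, and
its subdivision is not a corank subdivision.
-/

set_option autoImplicit false

namespace Run7.h773.Dress

open Finset

lemma mask_inj {A B : Finset (Fin 8)} (h : mask A = mask B) : A = B := by
  have hm : ∀ C : Finset (Fin 8), mask C = ∑ i ∈ C.map Fin.valEmbedding, 2 ^ i := by
    intro C
    rw [sum_map]
    rfl
  rw [hm, hm] at h
  exact map_injective _ (geomSum_injective le_rfl h)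

lemma mask_four {p q i j : Fin 8} (hpq : p ≠ q) (hip : i ≠ p) (hiq : i ≠ q) (hjp : j ≠ p)
    (hjq : j ≠ q) (hij : i ≠ j) : mask (insert i (insert j {p, q})) = mk p q i j := by
  unfold mask mk
  rw [sum_insert, sum_insert, sum_pair hpq]
  · ring
  · simp [hjp, hjq]
  · simp [hij, hip, hiq]

lemma w_four {p q i j : Fin 8} (hpq : p ≠ q) (hip : i ≠ p) (hiq : i ≠ q) (hjp : j ≠ p)
    (hjq : j ≠ q) (hij : i ≠ j) : w (insert i (insert j {p, q})) = (g p q i j : ℝ) - 1 := by
  unfold w g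
  rw [mask_four hpq hip hiq hjp hjq hij]

lemma okB_iff (a b c : ℕ) : okB a b c = true ↔
    ((a = b ∧ a ≤ c) ∨ (a = c ∧ a ≤ b)) ∨ (b = c ∧ b ≤ a) := by
  simp only [okB, Bool.or_eq_true, Bool.and_eq_true, Nat.beq_eq, Nat.ble_eq]

lemma chk_spec (p q i j k l : Fin 8) (hpq : p ≠ q) (hip : i ≠ p) (hiq : i ≠ q)
    (hjp : j ≠ p) (hjq : j ≠ q) (hij : i ≠ j) (hkp : k ≠ p) (hkq : k ≠ q) (hki : k ≠ i)
    (hkj : k ≠ j) (hlp : l ≠ p) (hlq : l ≠ q) (hli : l ≠ i) (hlj : l ≠ j) (hlk : l ≠ k) :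
    okB (g p q i j + g p q k l) (g p q i k + g p q j l) (g p q i l + g p q j k) = true := by
  have h := chk_true
  simp only [chk, List.all_eq_true, List.mem_range, Bool.or_eq_true, Nat.beq_eq] at h
  have hv : ∀ {a b : Fin 8}, a ≠ b → (a : ℕ) ≠ b := fun hab h => hab (Fin.ext h)
  have h1 := (h p p.2 q q.2).resolve_left (hv hpq)
  have h2 := (h1 i i.2).resolve_left (by simp only [not_or]; exact ⟨hv hip, hv hiq⟩)
  have h3 := (h2 j j.2).resolve_left (by
    simp only [not_or]; exact ⟨⟨hv hjp, hv hjq⟩, hv hij.symm⟩)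
  have h4 := (h3 k k.2).resolve_left (by
    simp only [not_or]; exact ⟨⟨⟨hv hkp, hv hkq⟩, hv hki⟩, hv hkj⟩)
  exact (h4 l l.2).resolve_left (by
    simp only [not_or]; exact ⟨⟨⟨⟨hv hlp, hv hlq⟩, hv hli⟩, hv hlj⟩, hv hlk⟩)

/-- The weight satisfies the three-term relations. -/
lemma w_rel (S : Finset (Fin 8)) (i j k l : Fin 8) (hS : S.card + 2 = 4)
    (hi : i ∉ S) (hj : j ∉ S) (hk : k ∉ S) (hl : l ∉ S)
    (hij : i ≠ j) (hik : i ≠ k) (hil : i ≠ l) (hjk : j ≠ k) (hjl : j ≠ l) (hkl : k ≠ l) :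
    ((w (insert i (insert j S)) + w (insert k (insert l S))
        = w (insert i (insert k S)) + w (insert j (insert l S)) ∧
      w (insert i (insert j S)) + w (insert k (insert l S))
        ≤ w (insert i (insert l S)) + w (insert j (insert k S))) ∨
     (w (insert i (insert j S)) + w (insert k (insert l S))
        = w (insert i (insert l S)) + w (insert j (insert k S)) ∧
      w (insert i (insert j S)) + w (insert k (insert l S))
        ≤ w (insert i (insert k S)) + w (insert j (insert l S))) ∨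
     (w (insert i (insert k S)) + w (insert j (insert l S))
        = w (insert i (insert l S)) + w (insert j (insert k S)) ∧
      w (insert i (insert k S)) + w (insert j (insert l S))
        ≤ w (insert i (insert j S)) + w (insert k (insert l S)))) := by
  obtain ⟨p, q, hpq, rfl⟩ := card_eq_two.mp (show S.card = 2 by omega)
  simp only [mem_insert, mem_singleton, not_or] at hi hj hk hl
  have h := (okB_iff _ _ _).mp (chk_spec p q i j k l hpq hi.1 hi.2 hj.1 hj.2 hij hk.1 hk.2
    hik.symm hjk.symm hl.1 hl.2 hil.symm hjl.symm hkl.symm)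
  rw [w_four hpq hi.1 hi.2 hj.1 hj.2 hij, w_four hpq hk.1 hk.2 hl.1 hl.2 hkl,
    w_four hpq hi.1 hi.2 hk.1 hk.2 hik, w_four hpq hj.1 hj.2 hl.1 hl.2 hjl,
    w_four hpq hi.1 hi.2 hl.1 hl.2 hil, w_four hpq hj.1 hj.2 hk.1 hk.2 hjk]
  rcases h with (⟨h1, h2⟩ | ⟨h1, h2⟩) | ⟨h1, h2⟩
  · left
    have h1' : (g p q i j : ℝ) + g p q k l = g p q i k + g p q j l := by exact_mod_cast h1
    have h2' : (g p q i j : ℝ) + g p q k l ≤ g p q i l + g p q j k := by exact_mod_cast h2
    constructor <;> linarith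
  · right; left
    have h1' : (g p q i j : ℝ) + g p q k l = g p q i l + g p q j k := by exact_mod_cast h1
    have h2' : (g p q i j : ℝ) + g p q k l ≤ g p q i k + g p q j l := by exact_mod_cast h2
    constructor <;> linarith
  · right; right
    have h1' : (g p q i k : ℝ) + g p q j l = g p q i l + g p q j k := by exact_mod_cast h1
    have h2' : (g p q i k : ℝ) + g p q j l ≤ g p q i j + g p q k l := by exact_mod_cast h2
    constructor <;> linarith

/-- The equalities satisfied by `w` are inherited by `U`. -/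
def Inh (U : Finset (Fin 8) → ℝ) : Prop :=
  ∀ (S : Finset (Fin 8)) (i j k l : Fin 8), S.card + 2 = 4 →
    i ∉ S → j ∉ S → k ∉ S → l ∉ S →
    i ≠ j → i ≠ k → i ≠ l → j ≠ k → j ≠ l → k ≠ l →
    w (insert i (insert j S)) + w (insert k (insert l S))
      = w (insert i (insert k S)) + w (insert j (insert l S)) →
    w (insert i (insert j S)) + w (insert k (insert l S))
      ≤ w (insert i (insert l S)) + w (insert j (insert k S)) →
    U (insert i (insert j S)) + U (insert k (insert l S))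
      = U (insert i (insert k S)) + U (insert j (insert l S))

/-- `U` vanishes at the sets with mask `m`. -/
def Z (U : Finset (Fin 8) → ℝ) (m : ℕ) : Prop := ∀ B : Finset (Fin 8), mask B = m → U B = 0

lemma beq_false (a b : ℕ) : (Nat.beq a b = false) ↔ a ≠ b :=
  ⟨Nat.ne_of_beq_eq_false, fun h => by
    cases hb : Nat.beq a b
    · rfl
    · exact absurd (Nat.eq_of_beq_eq_true hb) h⟩

lemma run_sound (U : Finset (Fin 8) → ℝ) (hU : Inh U)
    (ts : List (ℕ × ℕ × ℕ × ℕ × ℕ × ℕ)) (K : List ℕ) (hK : ∀ m ∈ K, Z U m) :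
    ∀ m ∈ run ts K, Z U m := by
  induction ts generalizing K with
  | nil => simpa [run] using hK
  | cons t ts ih =>
    obtain ⟨p, q, i, j, k, l⟩ := t
    unfold run
    split_ifs with h
    · apply ih
      simp only [Bool.and_eq_true, List.elem_eq_mem, decide_eq_true_eq] at h
      obtain ⟨⟨⟨hg, m1⟩, m2⟩, m3⟩ := h
      simp only [good, Bool.and_eq_true, Bool.not_eq_true', Nat.ble_eq, Nat.beq_eq,
        beq_false] at hg
      obtain ⟨⟨⟨⟨⟨⟨⟨⟨⟨⟨⟨⟨⟨⟨⟨⟨⟨⟨⟨⟨⟨⟨bp, bq⟩, bi⟩, bj⟩, bk⟩, bl⟩, npq⟩, nip⟩, niq⟩, njp⟩, njq⟩, nji⟩,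
        nkp⟩, nkq⟩, nki⟩, nkj⟩, nlp⟩, nlq⟩, nli⟩, nlj⟩, nlk⟩, e1⟩, e2⟩ := hg
      intro m hm
      rcases List.mem_cons.mp hm with rfl | hm
      · intro B hB
        obtain ⟨p', rfl⟩ : ∃ p' : Fin 8, (p' : ℕ) = p := ⟨⟨p, by omega⟩, rfl⟩
        obtain ⟨q', rfl⟩ : ∃ p' : Fin 8, (p' : ℕ) = q := ⟨⟨q, by omega⟩, rfl⟩
        obtain ⟨i', rfl⟩ : ∃ p' : Fin 8, (p' : ℕ) = i := ⟨⟨i, by omega⟩, rfl⟩
        obtain ⟨j', rfl⟩ : ∃ p' : Fin 8, (p' : ℕ) = j := ⟨⟨j, by omega⟩, rfl⟩
        obtain ⟨k', rfl⟩ : ∃ p' : Fin 8, (p' : ℕ) = k := ⟨⟨k, by omega⟩, rfl⟩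
        obtain ⟨l', rfl⟩ : ∃ p' : Fin 8, (p' : ℕ) = l := ⟨⟨l, by omega⟩, rfl⟩
        have hv : ∀ {a b : Fin 8}, (a : ℕ) ≠ b → a ≠ b := fun hab h => hab (by rw [h])
        have c1 := mask_four (hv npq) (hv nip) (hv niq) (hv njp) (hv njq) (hv nji).symm
        have c2 := mask_four (hv npq) (hv nkp) (hv nkq) (hv nlp) (hv nlq) (hv nlk).symm
        have c3 := mask_four (hv npq) (hv nip) (hv niq) (hv nkp) (hv nkq) (hv nki).symm
        have c4 := mask_four (hv npq) (hv njp) (hv njq) (hv nlp) (hv nlq) (hv nlj).symm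
        have hBeq : B = insert i' (insert j' {p', q'}) := mask_inj (hB.trans c1.symm)
        have v2 := hK _ m1 _ c2
        have v3 := hK _ m2 _ c3
        have v4 := hK _ m3 _ c4
        have e1' : (g p' q' i' j' : ℝ) + g p' q' k' l' = g p' q' i' k' + g p' q' j' l' := by
          exact_mod_cast e1
        have e2' : (g p' q' i' j' : ℝ) + g p' q' k' l' ≤ g p' q' i' l' + g p' q' j' k' := by
          exact_mod_cast e2
        have := hU {p', q'} i' j' k' l' (by rw [card_pair (hv npq)])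
          (by simp [hv nip, hv niq]) (by simp [hv njp, hv njq]) (by simp [hv nkp, hv nkq])
          (by simp [hv nlp, hv nlq]) (hv nji).symm (hv nki).symm (hv nli).symm (hv nkj).symm
          (hv nlj).symm (hv nlk).symm
          (by
            rw [w_four (hv npq) (hv nip) (hv niq) (hv njp) (hv njq) (hv nji).symm,
              w_four (hv npq) (hv nkp) (hv nkq) (hv nlp) (hv nlq) (hv nlk).symm,
              w_four (hv npq) (hv nip) (hv niq) (hv nkp) (hv nkq) (hv nki).symm,
              w_four (hv npq) (hv njp) (hv njq) (hv nlp) (hv nlq) (hv nlj).symm]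
            linarith)
          (by
            rw [w_four (hv npq) (hv nip) (hv niq) (hv njp) (hv njq) (hv nji).symm,
              w_four (hv npq) (hv nkp) (hv nkq) (hv nlp) (hv nlq) (hv nlk).symm,
              w_four (hv npq) (hv nip) (hv niq) (hv nlp) (hv nlq) (hv nli).symm,
              w_four (hv npq) (hv njp) (hv njq) (hv nkp) (hv nkq) (hv nkj).symm]
            linarith)
        rw [hBeq]
        linarith
      · exact hK m hm
    · exact ih K hK

lemma exists_sorted {B : Finset (Fin 8)} (hB : B.card = 4) :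
    ∃ p q i j : Fin 8, p < q ∧ q < i ∧ i < j ∧ B = insert i (insert j {p, q}) := by
  let e := B.orderEmbOfFin hB
  have h01 : e 0 < e 1 := e.strictMono (by decide)
  have h12 : e 1 < e 2 := e.strictMono (by decide)
  have h23 : e 2 < e 3 := e.strictMono (by decide)
  refine ⟨e 0, e 1, e 2, e 3, h01, h12, h23, ?_⟩
  have h : (B : Set (Fin 8)) = Set.range e := (B.range_orderEmbOfFin hB).symm
  ext x
  rw [← mem_coe, h, Set.mem_range]
  constructor
  · rintro ⟨y, rfl⟩
    fin_cases y <;> simp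
  · intro hx
    simp only [mem_insert, mem_singleton] at hx
    rcases hx with rfl | rfl | rfl | rfl
    · exact ⟨2, rfl⟩
    · exact ⟨3, rfl⟩
    · exact ⟨0, rfl⟩
    · exact ⟨1, rfl⟩

lemma all_zero (U : Finset (Fin 8) → ℝ) (hU : Inh U) (h0 : ∀ m ∈ init, Z U m)
    (B : Finset (Fin 8)) (hB : B.card = 4) : U B = 0 := by
  obtain ⟨p, q, i, j, hpq, hqi, hij, rfl⟩ := exists_sorted hB
  have h := run_all
  simp only [List.all_eq_true, List.mem_range, Bool.or_eq_true, Nat.ble_eq, List.elem_eq_mem,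
    decide_eq_true_eq] at h
  have h1 := ((h p p.2 q q.2).resolve_left (by simpa using hpq) i i.2).resolve_left
    (by simpa using hqi)
  have h2 := (h1 j j.2).resolve_left (by simpa using hij)
  exact run_sound U hU steps init h0 _ h2 _ (mask_four hpq.ne (hpq.trans hqi).ne' hqi.ne'
    ((hpq.trans hqi).trans hij).ne' (hqi.trans hij).ne' hij.ne)

end Run7.h773.Dress
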