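import Mathlib
/-!
The space of smooth real functions, the derivation operator on it, and functions vanishing
to a given order at a point.
-/
open scoped ContDiff Topology
open Polynomial

namespace Run7.h773

/-- the real vector space of smooth functions on the line -/
def V : Submodule ℝ (ℝ → ℝ) where
  carrier := {f | ContDiff ℝ ∞ f}
  add_mem' := by
    intro f g hf hg
    exact ContDiff.add (𝕜 := ℝ) (n := ∞) hf hg
  zero_mem' := by
    change ContDiff ℝ ∞ (fun _ : ℝ => (0 : ℝ))
    exact contDiff_const
  smul_mem' := by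
    intro c f hf
    exact ContDiff.const_smul (𝕜 := ℝ) (n := ∞) c hf

theorem mem_V {f : ℝ → ℝ} : f ∈ V ↔ ContDiff ℝ ∞ f := Iff.rfl

theorem smooth_V (f : V) : ContDiff ℝ ∞ f.1 := f.2

theorem diff_V (f : V) : Differentiable ℝ f.1 := (smooth_V f).differentiable (by simp)

/-- derivation -/
noncomputable def D : V →ₗ[ℝ] V where
  toFun f := ⟨deriv f.1, mem_V.2 (contDiff_infty_iff_deriv.1 (smooth_V f)).2⟩
  map_add' f g := by
    apply Subtype.ext
    funext t
    exact deriv_add (diff_V f t) (diff_V g t)
  map_smul' c f := by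
    apply Subtype.ext
    funext t
    exact deriv_const_smul c (diff_V f t)

/-- evaluation -/
def ev (t : ℝ) : V →ₗ[ℝ] ℝ where
  toFun f := f.1 t
  map_add' _ _ := rfl
  map_smul' _ _ := rfl

theorem D_pow_coe (k : ℕ) (f : V) : ((D ^ k) f).1 = iteratedDeriv k f.1 := by
  induction k with
  | zero => simp
  | succ k ih =>
    rw [pow_succ', Module.End.mul_apply, iteratedDeriv_succ, ← ih]
    rfl

/-- vanishing to order `N` at `t` -/
def Van (N : ℕ) (t : ℝ) (f : V) : Prop := ∀ k < N, ev t ((D ^ k) f) = 0

theorem Van.mono {N M : ℕ} {t : ℝ} {f : V} (h : Van N t f) (hM : M ≤ N) : Van M t f :=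
  fun k hk => h k (lt_of_lt_of_le hk hM)

theorem Van.aeval {N : ℕ} {t : ℝ} {f : V} (h : Van N t f) (P : ℝ[X]) (hP : P.natDegree < N) :
    ev t (Polynomial.aeval D P f) = 0 := by
  rw [Polynomial.aeval_eq_sum_range]
  simp only [LinearMap.coe_sum, Finset.sum_apply, LinearMap.smul_apply, map_sum, map_smul]
  apply Finset.sum_eq_zero
  intro k hk
  rw [h k (by have := Finset.mem_range.1 hk; omega)]
  simp

theorem Van.D {N : ℕ} {t : ℝ} {f : V} (h : Van (N + 1) t f) : Van N t (D f) := by
  intro k hk
  have := h (k + 1) (by omega)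
  rwa [pow_succ, Module.End.mul_apply] at this

theorem van_succ_iff {N : ℕ} {t : ℝ} {f : V} :
    Van (N + 1) t f ↔ ev t f = 0 ∧ Van N t (D f) := by
  constructor
  · intro h
    exact ⟨by simpa using h 0 (by omega), h.D⟩
  · rintro ⟨h0, h⟩ k hk
    rcases k with _ | k
    · simpa using h0
    · have := h k (by omega)
      rwa [pow_succ, Module.End.mul_apply]

theorem Van.add {N : ℕ} {t : ℝ} {f g : V} (hf : Van N t f) (hg : Van N t g) :
    Van N t (f + g) := by
  intro k hk
  rw [map_add, map_add, hf k hk, hg k hk, add_zero]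

/-- product of smooth functions -/
def mulV (f g : V) : V := ⟨f.1 * g.1, mem_V.2 ((smooth_V f).mul (smooth_V g))⟩

theorem D_mulV (f g : V) : D (mulV f g) = mulV (D f) g + mulV f (D g) := by
  apply Subtype.ext
  funext t
  exact deriv_mul (diff_V f t) (diff_V g t)

theorem Van.mulV {N : ℕ} {t : ℝ} : ∀ {f g : V}, Van N t f → Van N t (mulV g f) := by
  induction N with
  | zero => intro f g _ k hk; omega
  | succ N ih =>
    intro f g h
    rw [van_succ_iff] at h ⊢
    refine ⟨?_, ?_⟩
    · have h1 : f.1 t = 0 := h.1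
      change g.1 t * f.1 t = 0
      rw [h1, mul_zero]
    · rw [D_mulV]
      apply Van.add
      · apply ih
        have : Van (N+1) t f := van_succ_iff.2 h
        exact this.mono (by omega)
      · exact ih h.2

/-- cosine with frequency `l` -/
noncomputable def Cf (l : ℝ) : V :=
  ⟨fun t => Real.cos (l * t), mem_V.2 (by fun_prop)⟩

/-- sine with frequency `l` -/
noncomputable def Sf (l : ℝ) : V :=
  ⟨fun t => Real.sin (l * t), mem_V.2 (by fun_prop)⟩

theorem D_Cf (l : ℝ) : D (Cf l) = (-l) • Sf l := by
  apply Subtype.ext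
  funext t
  change deriv (fun t => Real.cos (l * t)) t = (-l) * Real.sin (l * t)
  have : HasDerivAt (fun t => Real.cos (l * t)) (-Real.sin (l * t) * (l * 1)) t :=
    (Real.hasDerivAt_cos (l * t)).comp t ((hasDerivAt_id t).const_mul l)
  rw [this.deriv]; ring

theorem D_Sf (l : ℝ) : D (Sf l) = l • Cf l := by
  apply Subtype.ext
  funext t
  change deriv (fun t => Real.sin (l * t)) t = l * Real.cos (l * t)
  have : HasDerivAt (fun t => Real.sin (l * t)) (Real.cos (l * t) * (l * 1)) t :=
    (Real.hasDerivAt_sin (l * t)).comp t ((hasDerivAt_id t).const_mul l)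
  rw [this.deriv]; ring

/-- the constant function one -/
def oneV : V := ⟨fun _ => 1, mem_V.2 contDiff_const⟩

theorem D_oneV : D oneV = 0 := by
  apply Subtype.ext
  funext t
  change deriv (fun _ : ℝ => (1:ℝ)) t = 0
  simp

end Run7.h773
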