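import Pool.Agent.Run7.h773.Smooth
/-!
Combinations of `cos (l t)`, `sin (l t)` that vanish to high order at a point.
-/
open scoped ContDiff Topology
open Polynomial Finset

namespace Run7.h773

/-- the polynomial `X^2 + l^2` -/
noncomputable def quad (l : ℝ) : ℝ[X] := X ^ 2 + C (l ^ 2)

/-- product of the `X^2 + l_i^2` -/
noncomputable def prd (s : Finset ℕ) (l : ℕ → ℝ) : ℝ[X] := ∏ i ∈ s, quad (l i)

theorem natDegree_quad (l : ℝ) : (quad l).natDegree = 2 := by
  unfold quad
  compute_degree!

theorem natDegree_prd (s : Finset ℕ) (l : ℕ → ℝ) : (prd s l).natDegree ≤ 2 * s.card := by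
  unfold prd
  refine (natDegree_prod_le _ _).trans ?_
  simp [natDegree_quad, mul_comm]

theorem aeval_quad (l : ℝ) (f : V) :
    aeval D (quad l) f = D (D f) + (l ^ 2) • f := by
  unfold quad
  rw [map_add, map_pow, aeval_X, aeval_C, LinearMap.add_apply, pow_two, Module.End.mul_apply]
  rfl

theorem aeval_quad_Cf (l m : ℝ) : aeval D (quad l) (Cf m) = (l ^ 2 - m ^ 2) • Cf m := by
  rw [aeval_quad, D_Cf, map_smul, D_Sf, smul_smul, ← add_smul]
  congr 1
  ring

theorem aeval_quad_Sf (l m : ℝ) : aeval D (quad l) (Sf m) = (l ^ 2 - m ^ 2) • Sf m := by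
  rw [aeval_quad, D_Sf, map_smul, D_Cf, smul_smul, ← add_smul]
  congr 1
  ring

theorem aeval_prd_Cf (s : Finset ℕ) (l : ℕ → ℝ) (m : ℝ) :
    aeval D (prd s l) (Cf m) = (∏ i ∈ s, (l i ^ 2 - m ^ 2)) • Cf m := by
  classical
  induction s using Finset.induction_on with
  | empty => simp [prd]
  | insert i s hi ih =>
    have : prd (insert i s) l = quad (l i) * prd s l := by
      unfold prd; rw [prod_insert hi]
    rw [this, map_mul, Module.End.mul_apply, ih, map_smul, aeval_quad_Cf, smul_smul,
      prod_insert hi]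
    congr 1
    ring

theorem aeval_prd_Sf (s : Finset ℕ) (l : ℕ → ℝ) (m : ℝ) :
    aeval D (prd s l) (Sf m) = (∏ i ∈ s, (l i ^ 2 - m ^ 2)) • Sf m := by
  classical
  induction s using Finset.induction_on with
  | empty => simp [prd]
  | insert i s hi ih =>
    have : prd (insert i s) l = quad (l i) * prd s l := by
      unfold prd; rw [prod_insert hi]
    rw [this, map_mul, Module.End.mul_apply, ih, map_smul, aeval_quad_Sf, smul_smul,
      prod_insert hi]
    congr 1
    ring

theorem aeval_prd_oneV (s : Finset ℕ) (l : ℕ → ℝ) :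
    aeval D (prd s l) oneV = (∏ i ∈ s, (l i ^ 2)) • oneV := by
  classical
  induction s using Finset.induction_on with
  | empty => simp [prd]
  | insert i s hi ih =>
    have : prd (insert i s) l = quad (l i) * prd s l := by
      unfold prd; rw [prod_insert hi]
    rw [this, map_mul, Module.End.mul_apply, ih, map_smul, aeval_quad, D_oneV, map_zero,
      zero_add, smul_smul, prod_insert hi]
    congr 1
    ring

theorem cos_sin_zero {l t a b : ℝ} (h1 : a * Real.cos (l * t) + b * Real.sin (l * t) = 0)
    (h2 : b * Real.cos (l * t) - a * Real.sin (l * t) = 0) : a = 0 ∧ b = 0 := by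
  have h := Real.sin_sq_add_cos_sq (l * t)
  constructor
  · have : a * (Real.sin (l*t)^2 + Real.cos (l*t)^2) = 0 := by
      linear_combination Real.cos (l*t) * h1 - Real.sin (l*t) * h2
    rwa [h, mul_one] at this
  · have : b * (Real.sin (l*t)^2 + Real.cos (l*t)^2) = 0 := by
      linear_combination Real.sin (l*t) * h1 + Real.cos (l*t) * h2
    rwa [h, mul_one] at this

/-- the trigonometric combination -/
noncomputable def comb (K : ℕ) (l a b : ℕ → ℝ) : V :=
  ∑ i ∈ range K, (a i • Cf (l i) + b i • Sf (l i))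

theorem trig_indep (K : ℕ) (l : ℕ → ℝ) (hl0 : ∀ i < K, l i ≠ 0)
    (hinj : ∀ i < K, ∀ j < K, l i ^ 2 = l j ^ 2 → i = j) (a b : ℕ → ℝ) (t : ℝ)
    (h : Van (2 * K) t (comb K l a b)) : ∀ i < K, a i = 0 ∧ b i = 0 := by
  classical
  intro m hm
  set s := (range K).erase m with hs
  have hcard : s.card = K - 1 := by
    rw [hs, card_erase_of_mem (mem_range.2 hm), card_range]
  have hdeg : (prd s l).natDegree ≤ 2 * (K - 1) := by
    rw [← hcard]; exact natDegree_prd s l
  set c : ℝ := ∏ i ∈ s, (l i ^ 2 - l m ^ 2) with hc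
  have hc0 : c ≠ 0 := by
    rw [hc, prod_ne_zero_iff]
    intro i hi h0
    have hi' := mem_erase.1 hi
    exact hi'.1 (hinj i (mem_range.1 hi'.2) m hm (by linarith))
  have hval : aeval D (prd s l) (comb K l a b) = c • (a m • Cf (l m) + b m • Sf (l m)) := by
    unfold comb
    rw [map_sum, sum_eq_single m]
    · rw [map_add, map_smul, map_smul, aeval_prd_Cf, aeval_prd_Sf, smul_add,
        smul_comm c (a m), smul_comm c (b m)]
    · intro i hi hne
      rw [map_add, map_smul, map_smul, aeval_prd_Cf, aeval_prd_Sf]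
      have : ∏ j ∈ s, (l j ^ 2 - l i ^ 2) = 0 := by
        apply prod_eq_zero (i := i)
        · exact mem_erase.2 ⟨hne, hi⟩
        · ring
      rw [this]; simp
    · intro hn; exact absurd (mem_range.2 hm) hn
  have e1 := h.aeval (prd s l) (by omega)
  have e2 := h.aeval (X * prd s l) (by
    refine lt_of_le_of_lt (natDegree_mul_le) ?_
    rw [natDegree_X]; omega)
  have hD : D (a m • Cf (l m) + b m • Sf (l m)) = a m • ((-l m) • Sf (l m)) + b m • (l m • Cf (l m)) := by
    rw [map_add, map_smul, map_smul, D_Cf, D_Sf]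
  rw [map_mul, Module.End.mul_apply, aeval_X, hval, map_smul, hD] at e2
  rw [hval, map_smul] at e1
  have h1 : c * (a m * Real.cos (l m * t) + b m * Real.sin (l m * t)) = 0 := e1
  have h2 : c * (a m * ((-l m) * Real.sin (l m * t)) + b m * (l m * Real.cos (l m * t))) = 0 := by
    have := e2
    simp only [map_smul, map_add] at this
    exact this
  have h1' := (mul_eq_zero.1 h1).resolve_left hc0
  have h2' := (mul_eq_zero.1 h2).resolve_left hc0
  have h3 : l m * (b m * Real.cos (l m * t) - a m * Real.sin (l m * t)) = 0 := by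
    linear_combination h2'
  have h3' := (mul_eq_zero.1 h3).resolve_left (hl0 m hm)
  exact cos_sin_zero h1' h3'

theorem trig_indep_v (K : ℕ) (l : ℕ → ℝ) (hl0 : ∀ i < K, l i ≠ 0)
    (hinj : ∀ i < K, ∀ j < K, l i ^ 2 = l j ^ 2 → i = j) (v : V)
    (hv : ∀ t, ev t (aeval D (prd (range K) l) v) ≠ 0) (a b : ℕ → ℝ) (c : ℝ) (t : ℝ)
    (h : Van (2 * K + 1) t (comb K l a b + c • v)) : (∀ i < K, a i = 0 ∧ b i = 0) ∧ c = 0 := by
  classical
  have hc : c = 0 := by
    have e := h.aeval (prd (range K) l) (by
      have := natDegree_prd (range K) l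
      rw [card_range] at this; omega)
    have hz : aeval D (prd (range K) l) (comb K l a b) = 0 := by
      unfold comb
      rw [map_sum]
      apply sum_eq_zero
      intro i hi
      rw [map_add, map_smul, map_smul, aeval_prd_Cf, aeval_prd_Sf]
      have : ∏ j ∈ range K, (l j ^ 2 - l i ^ 2) = 0 := by
        apply prod_eq_zero (i := i) hi
        ring
      rw [this]; simp
    rw [map_add, hz, zero_add, map_smul, map_smul] at e
    exact (mul_eq_zero.1 e).resolve_right (hv t)
  refine ⟨?_, hc⟩
  rw [hc, zero_smul, add_zero] at h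
  exact trig_indep K l hl0 hinj a b t (h.mono (by omega))

end Run7.h773
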